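import Mathlib

/-!
Choice of the half-slots, `p = 2`. `K` is the set of the components (paths), `eL k`, `eR k` are the
ends of the path `k`.
-/

set_option autoImplicit false

open Finset

namespace Pool.Agent.H60LA

section Own

variable {K Q : Type*} [Fintype K] [Fintype Q] [DecidableEq K] [DecidableEq Q]

/-- every vertex owns `D` of the paths which end at it (Hall) -/
theorem exists_own (eL eR : K → Q) (D : ℕ)
    (h : ∀ v, 2 * D ≤ (univ.filter fun k => eL k = v).card + (univ.filter fun k => eR k = v).card) :
    ∃ φ : Q × Fin D → K, Function.Injective φ ∧ ∀ a, eL (φ a) = a.1 ∨ eR (φ a) = a.1 := by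
  have hall : ∀ A : Finset (Q × Fin D),
      A.card ≤ (A.biUnion fun a => univ.filter fun k => eL k = a.1 ∨ eR k = a.1).card := by
    intro A
    set X := A.image Prod.fst with hX
    set B := A.biUnion fun a => univ.filter fun k => eL k = a.1 ∨ eR k = a.1 with hB
    have h1 : A.card ≤ X.card * D := by
      calc A.card ≤ (X ×ˢ (univ : Finset (Fin D))).card := by
            refine card_le_card fun a ha => ?_
            rw [mem_product]
            exact ⟨mem_image_of_mem _ ha, mem_univ _⟩
        _ = X.card * D := by rw [card_product, card_univ, Fintype.card_fin]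
    have hsub : ∀ k v, v ∈ X → (eL k = v ∨ eR k = v) → k ∈ B := by
      intro k v hv hk
      obtain ⟨a, ha, rfl⟩ := mem_image.1 hv
      exact mem_biUnion.2 ⟨a, ha, by simpa using hk⟩
    have h2 : ∑ v ∈ X, (univ.filter fun k => eL k = v).card ≤ B.card := by
      rw [← card_biUnion]
      · refine card_le_card fun k hk => ?_
        obtain ⟨v, hv, hk⟩ := mem_biUnion.1 hk
        exact hsub k v hv (Or.inl (by simpa using hk))
      · intro v _ w _ hvw
        rw [Function.onFun, disjoint_left]
        intro k hk hk'
        simp only [mem_filter, mem_univ, true_and] at hk hk'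
        exact hvw (hk.symm.trans hk')
    have h3 : ∑ v ∈ X, (univ.filter fun k => eR k = v).card ≤ B.card := by
      rw [← card_biUnion]
      · refine card_le_card fun k hk => ?_
        obtain ⟨v, hv, hk⟩ := mem_biUnion.1 hk
        exact hsub k v hv (Or.inr (by simpa using hk))
      · intro v _ w _ hvw
        rw [Function.onFun, disjoint_left]
        intro k hk hk'
        simp only [mem_filter, mem_univ, true_and] at hk hk'
        exact hvw (hk.symm.trans hk')
    have h4 : X.card * (2 * D) ≤ ∑ v ∈ X,
        ((univ.filter fun k => eL k = v).card + (univ.filter fun k => eR k = v).card) := by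
      rw [← smul_eq_mul, ← sum_const]
      exact sum_le_sum fun v _ => h v
    rw [sum_add_distrib] at h4
    nlinarith
  obtain ⟨φ, h1, h2⟩ := (Finset.all_card_le_biUnion_card_iff_exists_injective _).1 hall
  exact ⟨φ, h1, fun a => by simpa using h2 a⟩

/-- `p = 2`: every vertex chooses `lam` of its half-slots, no path is chosen at both ends -/
theorem core2 (eL eR : K → Q) (lam : ℕ)
    (h : ∀ v, 2 * lam ≤ (univ.filter fun k => eL k = v).card
      + (univ.filter fun k => eR k = v).card) :
    ∃ bL bR : K → Prop, (∀ v : Q, Nat.card {k // eL k = v ∧ bL k}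
      + Nat.card {k // eR k = v ∧ bR k} = lam) ∧ ∀ k, ¬ (bL k ∧ bR k) := by
  classical
  obtain ⟨φ, hφ, hφ'⟩ := exists_own eL eR lam h
  refine ⟨fun k => ∃ a, φ a = k ∧ eL k = a.1, fun k => ∃ a, φ a = k ∧ eL k ≠ a.1, ?_, ?_⟩
  · intro v
    have e1 : Nat.card {k // eL k = v ∧ ∃ a, φ a = k ∧ eL k = a.1}
        = (univ.filter fun i : Fin lam => eL (φ (v, i)) = v).card := by
      rw [Nat.card_eq_fintype_card, Fintype.card_subtype]
      symm
      refine card_bij (fun i _ => φ (v, i)) ?_ ?_ ?_
      · intro i hi
        simp only [mem_filter, mem_univ, true_and] at hi ⊢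
        exact ⟨hi, (v, i), rfl, hi⟩
      · intro i _ j _ hij
        have := hφ hij
        exact (Prod.ext_iff.1 this).2
      · intro k hk
        simp only [mem_filter, mem_univ, true_and] at hk
        obtain ⟨hk, a, ha, hka⟩ := hk
        have : a.1 = v := hka.symm.trans hk
        refine ⟨a.2, ?_, ?_⟩
        · simp only [mem_filter, mem_univ, true_and]
          rw [← this, Prod.mk.eta, ha, hka]
        · rw [← this, Prod.mk.eta, ha]
    have e2 : Nat.card {k // eR k = v ∧ ∃ a, φ a = k ∧ eL k ≠ a.1}
        = (univ.filter fun i : Fin lam => ¬ eL (φ (v, i)) = v).card := by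
      rw [Nat.card_eq_fintype_card, Fintype.card_subtype]
      symm
      refine card_bij (fun i _ => φ (v, i)) ?_ ?_ ?_
      · intro i hi
        simp only [mem_filter, mem_univ, true_and] at hi ⊢
        refine ⟨(hφ' (v, i)).resolve_left hi, (v, i), rfl, hi⟩
      · intro i _ j _ hij
        have := hφ hij
        exact (Prod.ext_iff.1 this).2
      · intro k hk
        simp only [mem_filter, mem_univ, true_and] at hk
        obtain ⟨hk, a, ha, hka⟩ := hk
        have h1 := hφ' a
        rw [ha] at h1
        have : a.1 = v := (h1.resolve_left hka).symm.trans hk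
        refine ⟨a.2, ?_, ?_⟩
        · simp only [mem_filter, mem_univ, true_and]
          rw [← this, Prod.mk.eta, ha]
          exact hka
        · rw [← this, Prod.mk.eta, ha]
    rw [e1, e2]
    have := card_filter_add_card_filter_not (s := (univ : Finset (Fin lam)))
      (fun i => eL (φ (v, i)) = v)
    rw [this, card_univ, Fintype.card_fin]
  · rintro k ⟨⟨a, ha, ha'⟩, b, hb, hb'⟩
    have := hφ (ha.trans hb.symm)
    subst this
    exact hb' ha'

end Own

end Pool.Agent.H60LA
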