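import Mathlib

/-!
Labels of half-edges. Every group of half-edges carries every label once, and the labels of the two
halves of an edge satisfy one inequality. A labelling with the smallest number of violated
inequalities has none: a violation can be moved along a walk, and it cannot come back.
-/

set_option autoImplicit false

open Finset

namespace Pool.Agent.H60LA

section Walk

variable {W C : Type*} [AddCommGroup C]

/-- violated half-edge -/
def Viol (m : W × C → Option (W × C)) (s : W × C → C) (a : W × C → C) (h : W × C) : Prop :=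
  ∃ k, m h = some k ∧ k.1 ≠ h.1 ∧ a h = a k + s h

/-- different labels in every group -/
def Valid (a : W × C → C) : Prop := ∀ h k : W × C, h.1 = k.1 → a h = a k → h = k

/-- smallest number of violations -/
def Opt (m : W × C → Option (W × C)) (s : W × C → C) (a : W × C → C) : Prop :=
  Valid a ∧ ∀ b, Valid b → {z | Viol m s a z}.ncard ≤ {z | Viol m s b z}.ncard

theorem Viol.symm {m : W × C → Option (W × C)} {s : W × C → C}
    (hm : ∀ h k, m h = some k → m k = some h) (hs : ∀ h k, m h = some k → s k = - s h)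
    {a : W × C → C} {h k : W × C} (hk : m h = some k) (h1 : k.1 ≠ h.1) (h2 : a h = a k + s h) :
    Viol m s a k :=
  ⟨h, hm _ _ hk, h1.symm, by rw [h2, hs _ _ hk]; abel⟩

open Classical in
theorem Opt.stuck [Finite W] [Finite C] {m : W × C → Option (W × C)} {s : W × C → C}
    (hm : ∀ h k, m h = some k → m k = some h) (hs : ∀ h k, m h = some k → s k = - s h)
    {a : W × C → C} (ha : Opt m s a) {h h' : W × C} (hh : Viol m s a h) (hne : h' ≠ h)
    (hg : h'.1 = h.1) :
    Opt m s (a ∘ Equiv.swap h h') ∧ Viol m s (a ∘ Equiv.swap h h') h' := by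
  obtain ⟨k, hk1, hk2, hk3⟩ := hh
  set a' := a ∘ Equiv.swap h h' with ha'
  have e1 : a' h = a h' := by simp [ha']
  have e2 : a' h' = a h := by simp [ha']
  have e3 : ∀ z, z ≠ h → z ≠ h' → a' z = a z := by
    intro z h1 h2
    simp only [ha', Function.comp_apply, Equiv.swap_apply_of_ne_of_ne h1 h2]
  have e4 : ∀ z : W × C, z.1 ≠ h.1 → a' z = a z := by
    intro z hz
    refine e3 z ?_ ?_
    · rintro rfl
      exact hz rfl
    · rintro rfl
      exact hz hg
  have hval : Valid a' := by
    intro x y hxy hxy'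
    have h1 : ∀ z : W × C, (Equiv.swap h h' z).1 = z.1 := by
      intro z
      by_cases hz : z = h
      · rw [hz, Equiv.swap_apply_left, hg]
      · by_cases hz' : z = h'
        · rw [hz', Equiv.swap_apply_right, hg]
        · rw [Equiv.swap_apply_of_ne_of_ne hz hz']
    exact (Equiv.swap h h').injective (ha.1 _ _ (by rw [h1, h1]; exact hxy) hxy')
  have hk' : a' k = a k := e4 k hk2
  have hnh : ¬ Viol m s a' h := by
    rintro ⟨k', h1, h2, h3⟩
    rw [hk1] at h1
    obtain rfl := Option.some.inj h1
    rw [e1, hk', ← hk3] at h3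
    exact hne (ha.1 _ _ hg h3)
  have hnk : ¬ Viol m s a' k := by
    rintro ⟨k', h1, h2, h3⟩
    rw [hm _ _ hk1] at h1
    obtain rfl := Option.some.inj h1
    exact hnh (Viol.symm hm hs (hm _ _ hk1) h2 h3)
  -- the other half-edges
  have hkey : ∀ z, Viol m s a' z → z ≠ h' → m h' ≠ some z → Viol m s a z ∧ z ≠ h ∧ z ≠ k := by
    intro z hz h1 h2
    have h3 : z ≠ h := by
      rintro rfl
      exact hnh hz
    have h4 : z ≠ k := by
      rintro rfl
      exact hnk hz
    refine ⟨?_, h3, h4⟩
    obtain ⟨y, hy1, hy2, hy3⟩ := hz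
    refine ⟨y, hy1, hy2, ?_⟩
    rw [e3 z h3 h1, e3 y] at hy3
    · exact hy3
    · rintro rfl
      rw [hm _ _ hy1] at hk1
      exact h4 (Option.some.inj hk1)
    · rintro rfl
      exact h2 (hm _ _ hy1)
  have hdrop : {z | Viol m s a z ∧ z ≠ h ∧ z ≠ k}.ncard + 2 ≤ {z | Viol m s a z}.ncard := by
    have h1 : {z | Viol m s a z ∧ z ≠ h ∧ z ≠ k} ∪ {h, k} ⊆ {z | Viol m s a z} := by
      rintro z (hz | hz)
      · exact hz.1
      · rcases hz with rfl | hz
        · exact ⟨k, hk1, hk2, hk3⟩
        · rw [Set.mem_singleton_iff] at hz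
          subst hz
          exact Viol.symm hm hs hk1 hk2 hk3
    have h2 := Set.ncard_le_ncard h1 (Set.toFinite _)
    rw [Set.ncard_union_eq _ (Set.toFinite _) (Set.toFinite _), Set.ncard_pair] at h2
    · exact h2
    · rintro rfl
      exact hk2 rfl
    · rw [Set.disjoint_left]
      rintro z ⟨_, h3, h4⟩ (h5 | h5)
      · exact h3 h5
      · exact h4 h5
  have hviol : Viol m s a' h' := by
    by_contra hcon
    have h1 : {z | Viol m s a' z} ⊆ {z | Viol m s a z ∧ z ≠ h ∧ z ≠ k} := by
      intro z hz
      refine hkey z hz ?_ ?_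
      · rintro rfl
        exact hcon hz
      · intro h2
        obtain ⟨y, hy1, hy2, hy3⟩ := hz
        have : y = h' := by
          rw [hm _ _ h2] at hy1
          exact (Option.some.inj hy1).symm
        subst this
        exact hcon (Viol.symm hm hs hy1 hy2 hy3)
    have h2 := Set.ncard_le_ncard h1 (Set.toFinite _)
    have h3 := ha.2 a' hval
    omega
  refine ⟨⟨hval, fun b hb => ?_⟩, hviol⟩
  obtain ⟨l, hl1, hl2, hl3⟩ := hviol
  have h1 : {z | Viol m s a' z} ⊆ {z | Viol m s a z ∧ z ≠ h ∧ z ≠ k} ∪ {h', l} := by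
    intro z hz
    by_cases h2 : z = h'
    · exact Or.inr (Or.inl h2)
    · by_cases h3 : m h' = some z
      · rw [hl1] at h3
        exact Or.inr (Or.inr (Option.some.inj h3).symm)
      · exact Or.inl (hkey z hz h2 h3)
  have h2 := Set.ncard_le_ncard h1 (Set.toFinite _)
  have h3 := Set.ncard_union_le {z | Viol m s a z ∧ z ≠ h ∧ z ≠ k} {h', l}
  have h4 : ({h', l} : Set (W × C)).ncard ≤ 2 := by
    have := Set.ncard_insert_le h' ({l} : Set (W × C))
    rw [Set.ncard_singleton] at this
    exact this
  have h5 := ha.2 b hb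
  omega

/-- the invariant of the walk -/
def Inv (m : W × C → Option (W × C)) (s : W × C → C) (n : ℕ) : Prop :=
  ∃ (a : W × C → C) (T : Finset W) (e : W → W × C) (h k : W × C), Opt m s a ∧ T.card = n ∧
    h.1 ∉ T ∧ m h = some k ∧ a h = a k + s h ∧ k.1 ∈ T ∧ e k.1 = k ∧
    (∀ v ∈ T, (e v).1 = v ∧ ∀ l : W × C, l.1 = v → l ≠ e v →
      ∃ l', m l = some l' ∧ a l' + s l = a (e v)) ∧
    ∀ v ∈ T, v ≠ k.1 → ∃ l' : W × C, m (e v) = some l' ∧ l'.1 ∈ T

open Classical in
theorem Inv.succ [Finite W] [Finite C] (hC : 3 ≤ Nat.card C) {m : W × C → Option (W × C)}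
    {s : W × C → C} (hm : ∀ h k, m h = some k → m k = some h)
    (hs : ∀ h k, m h = some k → s k = - s h) {n : ℕ} (hn : Inv m s n) : Inv m s (n + 1) := by
  obtain ⟨a, T, e, h, k, ha, hT, hhT, hk, hviol, hkT, hek, h4, h5⟩ := hn
  have hkh : k.1 ≠ h.1 := fun heq => hhT (heq ▸ hkT)
  have hV : Viol m s a h := ⟨k, hk, hkh, hviol⟩
  -- exit
  have hex : ∀ x y : W × C, ∃ z : W × C, z.1 = x.1 ∧ z ≠ x ∧ z ≠ y := by
    intro x y
    have := Fintype.ofFinite C
    have h1 : ∃ c : C, c ∉ ({x.2, y.2} : Finset C) := by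
      by_contra hcon
      push Not at hcon
      have h2 : (univ : Finset C) ⊆ {x.2, y.2} := fun c _ => hcon c
      have h3 := card_le_card h2
      have h4 := card_le_two (a := x.2) (b := y.2)
      rw [card_univ, ← Nat.card_eq_fintype_card] at h3
      omega
    obtain ⟨c, hc⟩ := h1
    simp only [mem_insert, mem_singleton, not_or] at hc
    refine ⟨(x.1, c), rfl, ?_, ?_⟩
    · intro heq
      exact hc.1 (Prod.ext_iff.1 heq).2
    · intro heq
      exact hc.2 (Prod.ext_iff.1 heq).2
  obtain ⟨h', hg, hne, -⟩ := hex h h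
  obtain ⟨hopt', k', hk'1, hk'2, hk'3⟩ := ha.stuck hm hs hV hne hg
  set a' := a ∘ Equiv.swap h h' with ha'
  have e2 : a' h' = a h := by simp [ha']
  have e3 : ∀ z, z ≠ h → z ≠ h' → a' z = a z := by
    intro z h1 h2
    simp only [ha', Function.comp_apply, Equiv.swap_apply_of_ne_of_ne h1 h2]
  have e4 : ∀ z : W × C, z.1 ≠ h.1 → a' z = a z := by
    intro z hz
    refine e3 z ?_ ?_
    · rintro rfl
      exact hz rfl
    · rintro rfl
      exact hz hg
  have hk'h : k'.1 ≠ h.1 := by rwa [hg] at hk'2
  have hV' : Viol m s a' k' := Viol.symm hm hs hk'1 hk'2 hk'3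
  have hinj : ∀ {x y z : W × C}, m x = some z → m y = some z → x = y := by
    intro x y z h1 h2
    have h3 := hm _ _ h1
    have h4 := hm _ _ h2
    rw [h3] at h4
    exact Option.some.inj h4
  -- the new group is not visited
  have hnew : k'.1 ∉ T := by
    intro hin
    obtain ⟨he1, he2⟩ := h4 _ hin
    have hne1 : k' ≠ e k'.1 := by
      intro heq
      by_cases hv : k'.1 = k.1
      · have h6 : k' = k := by
          rw [heq, hv, hek]
        rw [h6] at hk'1
        exact hne (hinj hk'1 hk)
      · obtain ⟨l', hl', hl'T⟩ := h5 _ hin hv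
        rw [← heq, hm _ _ hk'1] at hl'
        have := Option.some.inj hl'
        rw [← this, hg] at hl'T
        exact hhT hl'T
    obtain ⟨l, hl1, hl2, hl3⟩ := hex k' (e k'.1)
    obtain ⟨l', hl', hl''⟩ := he2 l hl1 hl3
    obtain ⟨_, y, hy1, hy2, hy3⟩ := hopt'.stuck hm hs hV' hl2 hl1
    rw [hl'] at hy1
    obtain rfl := Option.some.inj hy1
    have hy4 : l'.1 ≠ k'.1 := by rwa [hl1] at hy2
    have e5 : (a' ∘ Equiv.swap k' l) l' = a' l' := by
      have h6 : l' ≠ k' := fun heq => hy4 (by rw [heq])
      have h7 : l' ≠ l := fun heq => hy2 (by rw [heq])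
      simp only [Function.comp_apply, Equiv.swap_apply_of_ne_of_ne h6 h7]
    have e6 : (a' ∘ Equiv.swap k' l) l = a' k' := by simp
    rw [e5, e6] at hy3
    have e7 : a' l' = a l' := by
      refine e3 l' ?_ ?_
      · rintro rfl
        have h6 : l = k := by
          have := hm _ _ hl'
          rw [hk] at this
          exact (Option.some.inj this).symm
        rw [← hl1, h6, hek] at hl3
        exact hl3 rfl
      · rintro rfl
        have h6 : l = k' := by
          have := hm _ _ hl'
          rw [hk'1] at this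
          exact (Option.some.inj this).symm
        exact hl2 h6
    rw [e7, hl'', e4 k' hk'h] at hy3
    exact hne1 (ha.1 _ _ he1.symm hy3)
  refine ⟨a', insert h.1 T, Function.update e h.1 h', k', h', hopt', ?_, ?_, hm _ _ hk'1, ?_, ?_,
    ?_, ?_, ?_⟩
  · rw [card_insert_of_notMem hhT, hT]
  · rw [mem_insert, not_or]
    exact ⟨hk'h, hnew⟩
  · obtain ⟨y, hy1, _, hy3⟩ := hV'
    rw [hm _ _ hk'1] at hy1
    obtain rfl := Option.some.inj hy1
    exact hy3
  · rw [hg]
    exact mem_insert_self _ _
  · rw [hg, Function.update_self]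
  · intro v hv
    by_cases hvh : v = h.1
    · subst hvh
      rw [Function.update_self]
      refine ⟨hg, fun l hl hlne => ?_⟩
      by_cases hlh : l = h
      · subst hlh
        refine ⟨k, hk, ?_⟩
        rw [e4 k hkh, e2, hviol]
      · obtain ⟨_, y, hy1, hy2, hy3⟩ := ha.stuck hm hs hV hlh hl
        refine ⟨y, hy1, ?_⟩
        have h6 : y.1 ≠ h.1 := by rwa [hl] at hy2
        have e5 : (a ∘ Equiv.swap h l) y = a y := by
          have h7 : y ≠ h := fun heq => h6 (by rw [heq])
          have h8 : y ≠ l := fun heq => hy2 (by rw [heq])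
          simp only [Function.comp_apply, Equiv.swap_apply_of_ne_of_ne h7 h8]
        have e6 : (a ∘ Equiv.swap h l) l = a h := by simp
        rw [e5, e6] at hy3
        rw [e4 y h6, e2, hy3]
    · have hvT : v ∈ T := (mem_insert.1 hv).resolve_left hvh
      rw [Function.update_of_ne hvh]
      obtain ⟨he1, he2⟩ := h4 v hvT
      refine ⟨he1, fun l hl hlne => ?_⟩
      obtain ⟨l', hl', hl''⟩ := he2 l hl hlne
      refine ⟨l', hl', ?_⟩
      rw [e4 (e v) (by rw [he1]; exact hvh), ← hl'']
      congr 1
      refine e3 l' ?_ ?_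
      · rintro rfl
        have h6 : l = k := by
          have := hm _ _ hl'
          rw [hk] at this
          exact (Option.some.inj this).symm
        rw [← hl, h6, hek] at hlne
        exact hlne rfl
      · rintro rfl
        have h6 : l = k' := by
          have := hm _ _ hl'
          rw [hk'1] at this
          exact (Option.some.inj this).symm
        rw [← hl, h6] at hvT
        exact hnew hvT
  · intro v hv hvne
    rw [hg] at hvne
    have hvT : v ∈ T := (mem_insert.1 hv).resolve_left hvne
    rw [Function.update_of_ne hvne]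
    by_cases hvk : v = k.1
    · subst hvk
      exact ⟨h, by rw [hek]; exact hm _ _ hk, mem_insert_self _ _⟩
    · obtain ⟨l', hl', hl'T⟩ := h5 v hvT hvk
      exact ⟨l', hl', mem_insert_of_mem hl'T⟩

open Classical in
theorem exists_valid [Finite W] [Finite C] (hC : 3 ≤ Nat.card C)
    (m : W × C → Option (W × C)) (s : W × C → C) (hm : ∀ h k, m h = some k → m k = some h)
    (hs : ∀ h k, m h = some k → s k = - s h) :
    ∃ a : W × C → C, Valid a ∧ ∀ h, ¬ Viol m s a h := by
  obtain ⟨a, ha, hmin⟩ := Set.exists_min_image {a : W × C → C | Valid a}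
    (fun a => {z | Viol m s a z}.ncard) (Set.toFinite _)
    ⟨fun h => h.2, fun h k h1 h2 => Prod.ext h1 h2⟩
  have hopt : Opt m s a := ⟨ha, fun b hb => hmin b hb⟩
  refine ⟨a, ha, fun h hh => ?_⟩
  have hinv : ∀ n, Inv m s (n + 1) := by
    intro n
    induction n with
    | zero =>
      obtain ⟨k, hk1, hk2, hk3⟩ := hh
      refine ⟨a, {k.1}, fun _ => k, h, k, hopt, card_singleton _, ?_, hk1, hk3,
        mem_singleton_self _, rfl, ?_, ?_⟩
      · rw [mem_singleton]
        exact hk2.symm
      · intro v hv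
        rw [mem_singleton] at hv
        subst hv
        refine ⟨rfl, fun l hl hlne => ?_⟩
        obtain ⟨_, y, hy1, hy2, hy3⟩ := hopt.stuck hm hs (Viol.symm hm hs hk1 hk2 hk3) hlne hl
        refine ⟨y, hy1, ?_⟩
        have h6 : y.1 ≠ k.1 := by rwa [hl] at hy2
        have e5 : (a ∘ Equiv.swap k l) y = a y := by
          have h7 : y ≠ k := fun heq => h6 (by rw [heq])
          have h8 : y ≠ l := fun heq => hy2 (by rw [heq])
          simp only [Function.comp_apply, Equiv.swap_apply_of_ne_of_ne h7 h8]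
        have e6 : (a ∘ Equiv.swap k l) l = a k := by simp
        rw [e5, e6] at hy3
        exact hy3.symm
      · intro v hv hv'
        exact absurd (mem_singleton.1 hv) hv'
    | succ n ih => exact ih.succ hC hm hs
  have := Fintype.ofFinite W
  obtain ⟨_, T, _, _, _, _, hT, _⟩ := hinv (Fintype.card W)
  have := card_le_univ T
  omega

end Walk

end Pool.Agent.H60LA
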