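import Mathlib
import Pool.Agent.Helper60_LA.Walk

/-!
Labels of the half-slots, `p` odd, without conditions of parity.
-/

set_option autoImplicit false

open Finset

namespace Pool.Agent.H60LA

section CoreW

variable {K Q : Type*} [Finite K] [Finite Q]

/-- the other half -/
def flip (h : K ⊕ K) : K ⊕ K := Sum.elim Sum.inr Sum.inl h

omit [Finite K] in
theorem flip_flip (h : K ⊕ K) : flip (flip h) = h := by
  cases h <;> rfl

open Classical in
/-- labels of the half-slots: every label is used `lam` times at every vertex, and the labels at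
the two ends of a path are different after identification of the fibres -/
theorem coreW (p : ℕ) [Fact p.Prime] (hp : 3 ≤ p) (eL eR : K → Q) (s : K → ZMod p)
    (hs : ∀ k, eL k = eR k → s k = 0) (lam : ℕ)
    (hD : ∀ v, p * lam ≤ Nat.card {k // eL k = v} + Nat.card {k // eR k = v}) :
    ∃ aL aR : K → Option (ZMod p),
      (∀ v c, Nat.card {k // eL k = v ∧ aL k = some c}
        + Nat.card {k // eR k = v ∧ aR k = some c} = lam) ∧
      ∀ k c, aL k = some c → aR k ≠ some (c + s k) := by
  have : NeZero p := ⟨(Fact.out : p.Prime).ne_zero⟩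
  set en : K ⊕ K → Q := Sum.elim eL eR with hen
  have hsum : ∀ P : K ⊕ K → Prop, Nat.card {h // P h}
      = Nat.card {k // P (Sum.inl k)} + Nat.card {k // P (Sum.inr k)} := by
    intro P
    rw [Nat.card_congr Equiv.subtypeSum, Nat.card_sum]
  have hι : ∀ v : Q, Nonempty ((Fin lam × ZMod p) ↪ {h // en h = v}) := by
    intro v
    have := Fintype.ofFinite K
    have := Fintype.ofFinite Q
    rw [Function.Embedding.nonempty_iff_card_le, Fintype.card_prod, Fintype.card_fin, ZMod.card,
      ← Nat.card_eq_fintype_card, hsum, mul_comm]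
    exact hD v
  let ι := fun v => (hι v).some
  let Φ : (Q × Fin lam) × ZMod p → K ⊕ K := fun x => (ι x.1.1 (x.1.2, x.2)).1
  have hΦe : ∀ x, en (Φ x) = x.1.1 := fun x => (ι x.1.1 (x.1.2, x.2)).2
  have hΦ : Function.Injective Φ := by
    rintro ⟨⟨v, i⟩, c⟩ ⟨⟨w, j⟩, d⟩ hxy
    have h1 : v = w := by
      have h2 := hΦe ((v, i), c)
      rw [hxy, hΦe] at h2
      exact h2.symm
    subst h1
    have h2 : (i, c) = (j, d) := (ι v).injective (Subtype.ext hxy)
    rw [Prod.ext_iff] at h2
    simp only at h2
    rw [h2.1, h2.2]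
  let m : (Q × Fin lam) × ZMod p → Option ((Q × Fin lam) × ZMod p) := fun x =>
    if h : ∃ y, Φ y = flip (Φ x) then some h.choose else none
  have hm : ∀ x y, m x = some y ↔ Φ y = flip (Φ x) := by
    intro x y
    simp only [m]
    split_ifs with h
    · constructor
      · intro h1
        rw [← Option.some.inj h1]
        exact h.choose_spec
      · intro h1
        rw [hΦ (h.choose_spec.trans h1.symm)]
    · constructor
      · intro h1
        simp at h1
      · intro h1
        exact absurd ⟨y, h1⟩ h
  let s' : (Q × Fin lam) × ZMod p → ZMod p := fun x => Sum.elim (fun k => - s k) s (Φ x)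
  have hm1 : ∀ x y, m x = some y → m y = some x := by
    intro x y h
    rw [hm] at h ⊢
    rw [h, flip_flip]
  have hs1 : ∀ x y, m x = some y → s' y = - s' x := by
    intro x y h
    rw [hm] at h
    simp only [s', h]
    cases Φ x with
    | inl k => simp [flip]
    | inr k => simp [flip]
  have hC : 3 ≤ Nat.card (ZMod p) := by
    rw [Nat.card_zmod]
    exact hp
  obtain ⟨a, ha1, ha2⟩ := exists_valid hC m s' hm1 hs1
  let lab : K ⊕ K → Option (ZMod p) := fun h =>
    if hx : ∃ x, Φ x = h then some (a hx.choose) else none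
  have hlab : ∀ x, lab (Φ x) = some (a x) := by
    intro x
    have h : ∃ y, Φ y = Φ x := ⟨x, rfl⟩
    simp only [lab, dif_pos h]
    rw [hΦ h.choose_spec]
  have hlab' : ∀ h c, lab h = some c → ∃ x, Φ x = h ∧ a x = c := by
    intro h c hc
    by_cases hx : ∃ x, Φ x = h
    · obtain ⟨x, rfl⟩ := hx
      rw [hlab] at hc
      exact ⟨x, rfl, Option.some.inj hc⟩
    · simp only [lab, dif_neg hx] at hc
      simp at hc
  refine ⟨fun k => lab (Sum.inl k), fun k => lab (Sum.inr k), ?_, ?_⟩
  · intro v c
    have h1 := hsum fun h => en h = v ∧ lab h = some c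
    simp only [hen, Sum.elim_inl, Sum.elim_inr] at h1
    rw [← h1]
    have hbij : ∀ i : Fin lam, ∃ z : ZMod p, a ((v, i), z) = c := by
      intro i
      have hinj : Function.Injective fun z : ZMod p => a ((v, i), z) := by
        intro z z' hzz
        exact (Prod.ext_iff.1 (ha1 ((v, i), z) ((v, i), z') rfl hzz)).2
      exact (Finite.injective_iff_surjective.1 hinj) c
    choose z hz using hbij
    have hlam : Nat.card (Fin lam) = lam := by simp
    rw [← hlam]
    symm
    refine Nat.card_eq_of_bijective (fun i : Fin lam => (⟨Φ ((v, i), z i), hΦe _, ?_⟩ :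
      {h // en h = v ∧ lab h = some c})) ⟨?_, ?_⟩
    · rw [hlab, hz]
    · intro i j hij
      have h0 : Φ ((v, i), z i) = Φ ((v, j), z j) :=
        congrArg (fun x : {h // en h = v ∧ lab h = some c} => x.1) hij
      have h2 := hΦ h0
      exact (Prod.ext_iff.1 (Prod.ext_iff.1 h2).1).2
    · rintro ⟨h, h2, h3⟩
      obtain ⟨⟨⟨w, i⟩, d⟩, rfl, hx⟩ := hlab' h c h3
      have h4 : w = v := (hΦe ((w, i), d)).symm.trans h2
      subst h4
      refine ⟨i, Subtype.ext ?_⟩
      have h5 := ha1 ((w, i), z i) ((w, i), d) rfl ((hz i).trans hx.symm)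
      show Φ ((w, i), z i) = Φ ((w, i), d)
      rw [h5]
  · intro k c h1 h2
    obtain ⟨x, hx, hxc⟩ := hlab' _ _ h1
    obtain ⟨y, hy, hyc⟩ := hlab' _ _ h2
    have h3 : m y = some x := by
      rw [hm, hx, hy]
      rfl
    have h4 : s' y = s k := by
      simp only [s', hy, Sum.elim_inr]
    by_cases h5 : x.1 = y.1
    · have h6 : eL k = eR k := by
        have h7 := hΦe x
        have h8 := hΦe y
        rw [hx] at h7
        rw [hy, ← h5, ← h7] at h8
        exact h8.symm
      rw [hs k h6, add_zero] at hyc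
      have h7 := ha1 x y h5 (hxc.trans hyc.symm)
      rw [← h7, hx] at hy
      simp at hy
    · exact ha2 y ⟨x, h3, h5, by rw [hyc, hxc, h4]⟩

end CoreW

end Pool.Agent.H60LA
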