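import Mathlib

/-!
Linear forests: numberings of the vertices such that adjacent vertices have consecutive numbers.
-/

set_option autoImplicit false

open SimpleGraph

namespace Pool.Agent.H60LA

variable {V : Type*}

/-- every nonempty finite set of vertices contains a vertex with at most one neighbour in it -/
def Thin (F : SimpleGraph V) : Prop :=
  ∀ U : Finset V, U.Nonempty → ∃ v ∈ U, ∀ x ∈ U, ∀ y ∈ U, F.Adj v x → F.Adj v y → x = y

/-- every vertex has at most two neighbours -/
def Deg2 (F : SimpleGraph V) : Prop :=
  ∀ v x y z, F.Adj v x → F.Adj v y → F.Adj v z → x = y ∨ x = z ∨ y = z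

/-- numbering of the vertices; adjacent vertices have consecutive numbers -/
def IsNum (F : SimpleGraph V) (f : V → ℕ) : Prop :=
  Function.Injective f ∧ ∀ x y, F.Adj x y → f y = f x + 1 ∨ f x = f y + 1

theorem Thin.isAcyclic {F : SimpleGraph V} (h : Thin F) : F.IsAcyclic := by
  classical
  intro v c hc
  obtain ⟨w, hw, hu⟩ := h c.support.toFinset ⟨v, by simp⟩
  rw [List.mem_toFinset] at hw
  have hc' : (c.rotate w hw).IsCycle := hc.rotate hw
  have hn : ¬ (c.rotate w hw).Nil := hc'.not_nil
  have hs : ∀ x, x ∈ (c.rotate w hw).support → x ∈ c.support.toFinset := by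
    intro x hx
    rw [List.mem_toFinset]
    exact (Walk.mem_support_rotate_iff c w hw).1 hx
  have h1 : (c.rotate w hw).snd ∈ (c.rotate w hw).support := Walk.getVert_mem_support _ _
  have h2 : (c.rotate w hw).penultimate ∈ (c.rotate w hw).support :=
    Walk.getVert_mem_support _ _
  exact hc'.snd_ne_penultimate (hu _ (hs _ h1) _ (hs _ h2) (Walk.adj_snd hn)
    (Walk.adj_penultimate hn).symm)

theorem Deg2.ncard_le {F : SimpleGraph V} (h : Deg2 F) (v : V) : (F.neighborSet v).ncard ≤ 2 := by
  by_contra hlt
  push Not at hlt
  obtain ⟨x, y, z, hx, hy, hz, hxy, hxz, hyz⟩ := (Set.two_lt_ncard_iff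
    (Set.finite_of_ncard_pos (by omega))).1 hlt
  rcases h v x y z hx hy hz with h | h | h
  · exact hxy h
  · exact hxz h
  · exact hyz h

theorem IsNum.thin {F : SimpleGraph V} {f : V → ℕ} (h : IsNum F f) : Thin F := by
  intro U hU
  obtain ⟨v, hv, hmax⟩ := U.exists_max_image f hU
  refine ⟨v, hv, fun x hx y hy hax hay => h.1 ?_⟩
  have h1 := hmax x hx
  have h2 := hmax y hy
  have h3 := h.2 v x hax
  have h4 := h.2 v y hay
  omega

theorem IsNum.deg2 {F : SimpleGraph V} {f : V → ℕ} (h : IsNum F f) : Deg2 F := by
  intro v x y z hx hy hz
  have h1 := h.2 v x hx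
  have h2 := h.2 v y hy
  have h3 := h.2 v z hz
  have : f x = f y ∨ f x = f z ∨ f y = f z := by omega
  rcases this with h' | h' | h'
  · exact Or.inl (h.1 h')
  · exact Or.inr (Or.inl (h.1 h'))
  · exact Or.inr (Or.inr (h.1 h'))

theorem exists_num_aux {F : SimpleGraph V} (hT : Thin F) (hD : Deg2 F) (s : Finset V) :
    ∃ f : V → ℕ, Set.InjOn f s ∧ ∀ x ∈ s, ∀ y ∈ s, F.Adj x y → f y = f x + 1 ∨ f x = f y + 1 := by
  classical
  induction s using Finset.strongInduction with
  | H s ih =>
    rcases s.eq_empty_or_nonempty with rfl | hne
    · exact ⟨fun _ => 0, by simp, by simp⟩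
    obtain ⟨v, hv, huniq⟩ := hT s hne
    obtain ⟨f, hf, hadj⟩ := ih (s.erase v) (Finset.erase_ssubset hv)
    have hmem : ∀ x ∈ s, x ≠ v → x ∈ s.erase v := fun x hx hxv => Finset.mem_erase.2 ⟨hxv, hx⟩
    by_cases hnb : ∃ u ∈ s, F.Adj v u
    · obtain ⟨u, hu, hvu⟩ := hnb
      have huv : u ≠ v := hvu.ne'
      -- orientation
      obtain ⟨f, hf, hadj, hlow⟩ : ∃ f : V → ℕ, Set.InjOn f (s.erase v : Finset V) ∧
          (∀ x ∈ s.erase v, ∀ y ∈ s.erase v, F.Adj x y → f y = f x + 1 ∨ f x = f y + 1) ∧
          ∀ w ∈ s.erase v, F.Adj u w → f u = f w + 1 := by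
        by_cases hw : ∃ w ∈ s.erase v, F.Adj u w ∧ f w = f u + 1
        · obtain ⟨w, hw, huw, hfw⟩ := hw
          have hle : ∀ x ∈ s.erase v, f x ≤ (s.erase v).sup f := fun x hx => Finset.le_sup hx
          refine ⟨fun x => (s.erase v).sup f - f x, ?_, ?_, ?_⟩
          · intro x hx y hy hxy
            have h1 := hle x (Finset.mem_coe.1 hx)
            have h2 := hle y (Finset.mem_coe.1 hy)
            exact hf hx hy (by simp only at hxy; omega)
          · intro x hx y hy hxy
            have h1 := hle x hx
            have h2 := hle y hy
            have h3 := hadj x hx y hy hxy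
            show (s.erase v).sup f - f y = (s.erase v).sup f - f x + 1 ∨
              (s.erase v).sup f - f x = (s.erase v).sup f - f y + 1
            omega
          · intro w' hw' huw'
            have h1 := hle w hw
            have h2 : w' = w := by
              rcases hD u v w' w hvu.symm huw' huw with h | h | h
              · exact absurd h.symm (Finset.mem_erase.1 hw').1
              · exact absurd h.symm (Finset.mem_erase.1 hw).1
              · exact h
            subst h2
            show (s.erase v).sup f - f u = (s.erase v).sup f - f w' + 1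
            omega
        · push Not at hw
          refine ⟨f, hf, hadj, ?_⟩
          intro w hw' huw
          have h1 := hw w hw' huw
          have h2 := hadj u (hmem u hu huv) w hw' huw
          omega
      refine ⟨fun x => if x = v then f u + 1 else if f u < f x then f x + 1 else f x, ?_, ?_⟩
      · intro x hx y hy hxy
        have hx' : x ∈ s := by simpa using hx
        have hy' : y ∈ s := by simpa using hy
        simp only at hxy
        by_cases hxv : x = v
        · by_cases hyv : y = v
          · rw [hxv, hyv]
          · exfalso
            rw [if_pos hxv, if_neg hyv] at hxy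
            split_ifs at hxy <;> omega
        · by_cases hyv : y = v
          · exfalso
            rw [if_neg hxv, if_pos hyv] at hxy
            split_ifs at hxy <;> omega
          · rw [if_neg hxv, if_neg hyv] at hxy
            refine hf (Finset.mem_coe.2 (hmem x hx' hxv)) (Finset.mem_coe.2 (hmem y hy' hyv)) ?_
            split_ifs at hxy <;> omega
      · intro x hx y hy hxy
        show (if y = v then f u + 1 else if f u < f y then f y + 1 else f y)
            = (if x = v then f u + 1 else if f u < f x then f x + 1 else f x) + 1 ∨
          (if x = v then f u + 1 else if f u < f x then f x + 1 else f x)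
            = (if y = v then f u + 1 else if f u < f y then f y + 1 else f y) + 1
        by_cases hxv : x = v
        · subst hxv
          have hyu : y = u := huniq y hy u hu hxy hvu
          subst hyu
          rw [if_pos rfl, if_neg huv, if_neg (lt_irrefl _)]
          exact Or.inr rfl
        · by_cases hyv : y = v
          · subst hyv
            have hxu : x = u := huniq x hx u hu hxy.symm hvu
            subst hxu
            rw [if_pos rfl, if_neg huv, if_neg (lt_irrefl _)]
            exact Or.inl rfl
          · rw [if_neg hxv, if_neg hyv]
            have hx' := hmem x hx hxv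
            have hy' := hmem y hy hyv
            have h1 := hadj x hx' y hy' hxy
            have h2 : f x = f u → x = u := fun h =>
              hf (Finset.mem_coe.2 hx') (Finset.mem_coe.2 (hmem u hu huv)) h
            have h3 : f y = f u → y = u := fun h =>
              hf (Finset.mem_coe.2 hy') (Finset.mem_coe.2 (hmem u hu huv)) h
            have h4 : f x = f u → f u = f y + 1 := fun h => by
              have := h2 h
              subst this
              exact hlow y hy' hxy
            have h5 : f y = f u → f u = f x + 1 := fun h => by
              have := h3 h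
              subst this
              exact hlow x hx' hxy.symm
            split_ifs <;> omega
    · push Not at hnb
      refine ⟨fun x => if x = v then (s.erase v).sup f + 1 else f x, ?_, ?_⟩
      · intro x hx y hy hxy
        have hx' : x ∈ s := by simpa using hx
        have hy' : y ∈ s := by simpa using hy
        simp only at hxy
        by_cases hxv : x = v
        · by_cases hyv : y = v
          · rw [hxv, hyv]
          · exfalso
            rw [if_pos hxv, if_neg hyv] at hxy
            have := Finset.le_sup (f := f) (hmem y hy' hyv)
            omega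
        · by_cases hyv : y = v
          · exfalso
            rw [if_neg hxv, if_pos hyv] at hxy
            have := Finset.le_sup (f := f) (hmem x hx' hxv)
            omega
          · rw [if_neg hxv, if_neg hyv] at hxy
            exact hf (Finset.mem_coe.2 (hmem x hx' hxv)) (Finset.mem_coe.2 (hmem y hy' hyv)) hxy
      · intro x hx y hy hxy
        have hxv : x ≠ v := by
          rintro rfl
          exact hnb y hy hxy
        have hyv : y ≠ v := by
          rintro rfl
          exact hnb x hx hxy.symm
        simp only [if_neg hxv, if_neg hyv]
        exact hadj x (hmem x hx hxv) y (hmem y hy hyv) hxy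

theorem exists_num [Finite V] {F : SimpleGraph V} (hT : Thin F) (hD : Deg2 F) :
    ∃ f : V → ℕ, IsNum F f := by
  have := Fintype.ofFinite V
  obtain ⟨f, hf, hadj⟩ := exists_num_aux hT hD Finset.univ
  exact ⟨f, fun x y h => hf (by simp) (by simp) h,
    fun x y h => hadj x (Finset.mem_univ _) y (Finset.mem_univ _) h⟩

theorem isNum_mono {F F' : SimpleGraph V} {f : V → ℕ} (h : IsNum F f) (hle : F' ≤ F) :
    IsNum F' f := ⟨h.1, fun x y hxy => h.2 x y (hle hxy)⟩

end Pool.Agent.H60LA
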