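import Mathlib
import Pool.Agent.Helper60_LA.Num

/-!
Components of a linear forest with a numbering, their ends, and the lifts of a linear forest on
`Q` to `Q × ZMod p`.
-/

set_option autoImplicit false

open SimpleGraph

namespace Pool.Agent.H60LA

variable {Q : Type*}

/-- numbering by integers -/
def IsNumZ (F : SimpleGraph Q) (f : Q → ℤ) : Prop :=
  Function.Injective f ∧ ∀ x y, F.Adj x y → f y = f x + 1 ∨ f x = f y + 1

theorem IsNum.toZ {F : SimpleGraph Q} {f : Q → ℕ} (h : IsNum F f) :
    IsNumZ F fun x => (f x : ℤ) := by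
  refine ⟨fun x y hxy => h.1 (by simpa using hxy), fun x y hxy => ?_⟩
  have := h.2 x y hxy
  show (f y : ℤ) = f x + 1 ∨ (f x : ℤ) = f y + 1
  omega

theorem IsNumZ.neg {F : SimpleGraph Q} {f : Q → ℤ} (h : IsNumZ F f) :
    IsNumZ F fun x => - f x := by
  refine ⟨fun x y hxy => h.1 (neg_injective hxy), fun x y hxy => ?_⟩
  have := h.2 x y hxy
  show - f y = - f x + 1 ∨ - f x = - f y + 1
  omega

/-- no neighbour with a smaller number -/
def NoL (F : SimpleGraph Q) (f : Q → ℤ) (x : Q) : Prop := ∀ y, F.Adj x y → f x < f y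

theorem NoL.le {F : SimpleGraph Q} {f : Q → ℤ} (hf : IsNumZ F f) {x y : Q} (hx : NoL F f x)
    (h : F.Reachable x y) : f x ≤ f y := by
  rw [reachable_iff_reflTransGen] at h
  induction h with
  | refl => exact le_rfl
  | tail _ hyz ih =>
    rename_i b c _
    rcases ih.lt_or_eq with h | h
    · have := hf.2 _ _ hyz
      omega
    · have hb := hf.1 h
      subst hb
      exact (hx _ hyz).le

theorem NoL.unique {F : SimpleGraph Q} {f : Q → ℤ} (hf : IsNumZ F f) {x y : Q} (hx : NoL F f x)
    (hy : NoL F f y) (h : F.Reachable x y) : x = y :=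
  hf.1 (le_antisymm (hx.le hf h) (hy.le hf h.symm))

theorem exists_noL [Finite Q] {F : SimpleGraph Q} {f : Q → ℤ} (hf : IsNumZ F f) (x : Q) :
    ∃ y, F.Reachable x y ∧ NoL F f y := by
  obtain ⟨y, hy, hmin⟩ := Set.exists_min_image {y | F.Reachable x y} f (Set.toFinite _)
    ⟨x, Reachable.refl x⟩
  refine ⟨y, hy, fun z hz => ?_⟩
  have h1 := hmin z (Reachable.trans hy hz.reachable)
  have h2 := hf.2 y z hz
  omega

/-- the ends of the components -/
theorem exists_ends [Finite Q] {N : ℕ} (F : Fin N → SimpleGraph Q) (f : Fin N → Q → ℤ)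
    (hf : ∀ j, IsNumZ (F j) (f j)) :
    ∃ e : (Σ j, (F j).ConnectedComponent) → Q,
      (∀ k, (F k.1).connectedComponentMk (e k) = k.2 ∧ NoL (F k.1) (f k.1) (e k)) ∧
      ∀ (P : (Σ j, (F j).ConnectedComponent) → Prop) (v : Q), Nat.card {k // e k = v ∧ P k}
        = Nat.card {j // NoL (F j) (f j) v ∧ P ⟨j, (F j).connectedComponentMk v⟩} := by
  have h1 : ∀ k : (Σ j, (F j).ConnectedComponent),
      ∃ y, (F k.1).connectedComponentMk y = k.2 ∧ NoL (F k.1) (f k.1) y := by
    rintro ⟨j, C⟩
    obtain ⟨x, rfl⟩ := C.exists_rep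
    obtain ⟨y, hy, hy'⟩ := exists_noL (hf j) x
    exact ⟨y, (ConnectedComponent.sound hy).symm, hy'⟩
  choose e he1 he2 using h1
  refine ⟨e, fun k => ⟨he1 k, he2 k⟩, fun P v => ?_⟩
  have hk : ∀ k, e k = v → k = ⟨k.1, (F k.1).connectedComponentMk v⟩ := by
    rintro k rfl
    rw [he1]
  have he : ∀ j, NoL (F j) (f j) v → e ⟨j, (F j).connectedComponentMk v⟩ = v := by
    intro j hj
    have h2 := he1 ⟨j, (F j).connectedComponentMk v⟩
    have h3 := he2 ⟨j, (F j).connectedComponentMk v⟩
    exact h3.unique (hf j) hj (ConnectedComponent.exact h2)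
  refine Nat.card_congr ⟨fun k => ⟨k.1.1, ?_, ?_⟩, fun j => ⟨⟨j.1, (F j.1).connectedComponentMk v⟩,
    he j.1 j.2.1, j.2.2⟩, ?_, ?_⟩
  · have := he2 k.1
    rwa [k.2.1] at this
  · rw [← hk k.1 k.2.1]
    exact k.2.2
  · intro k
    exact Subtype.ext (hk k.1 k.2.1).symm
  · intro j
    rfl

theorem exists_pot [Finite Q] {F : SimpleGraph Q} {A : Type*} [AddCommGroup A] (hT : Thin F)
    (ℓ : Q → Q → A) (hℓ : ∀ x y, F.Adj x y → ℓ y x = - ℓ x y) :
    ∃ g : Q → A, ∀ x y, F.Adj x y → g y = g x + ℓ x y := by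
  classical
  have key : ∀ s : Finset Q, ∃ g : Q → A, ∀ x ∈ s, ∀ y ∈ s, F.Adj x y → g y = g x + ℓ x y := by
    intro s
    induction s using Finset.strongInduction with
    | H s ih =>
      rcases s.eq_empty_or_nonempty with rfl | hne
      · exact ⟨fun _ => 0, by simp⟩
      obtain ⟨v, hv, huniq⟩ := hT s hne
      obtain ⟨g, hg⟩ := ih (s.erase v) (Finset.erase_ssubset hv)
      have hmem : ∀ x ∈ s, x ≠ v → x ∈ s.erase v := fun x hx hxv => Finset.mem_erase.2 ⟨hxv, hx⟩
      by_cases hnb : ∃ u ∈ s, F.Adj v u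
      · obtain ⟨u, hu, hvu⟩ := hnb
        refine ⟨Function.update g v (g u + ℓ u v), fun x hx y hy hxy => ?_⟩
        by_cases hxv : x = v
        · subst hxv
          have hyu : y = u := huniq y hy u hu hxy hvu
          subst hyu
          rw [Function.update_self, Function.update_of_ne hxy.ne', hℓ _ _ hxy]
          abel
        · by_cases hyv : y = v
          · subst hyv
            have hxu : x = u := huniq x hx u hu hxy.symm hvu
            subst hxu
            rw [Function.update_self, Function.update_of_ne hxv]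
          · rw [Function.update_of_ne hxv, Function.update_of_ne hyv]
            exact hg x (hmem x hx hxv) y (hmem y hy hyv) hxy
      · push Not at hnb
        refine ⟨g, fun x hx y hy hxy => hg x (hmem x hx ?_) y (hmem y hy ?_) hxy⟩
        · rintro rfl
          exact hnb y hy hxy
        · rintro rfl
          exact hnb x hx hxy.symm
  have := Fintype.ofFinite Q
  obtain ⟨g, hg⟩ := key Finset.univ
  exact ⟨g, fun x y hxy => hg x (Finset.mem_univ _) y (Finset.mem_univ _) hxy⟩

/-- number of the neighbours and of the free sides of a vertex -/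
theorem count_sides [Fintype Q] {N : ℕ} (F : Fin N → SimpleGraph Q) (f : Fin N → Q → ℤ)
    (hf : ∀ j, IsNumZ (F j) (f j)) (x : Q) :
    Nat.card {j // NoL (F j) (f j) x} + Nat.card {j // NoL (F j) (fun y => - f j y) x}
      + ∑ y, Nat.card {j // (F j).Adj x y} = 2 * N := by
  classical
  have hNat : ∀ P : Fin N → Prop, Nat.card {j // P j} = ∑ j, if P j then 1 else 0 := by
    intro P
    rw [Nat.card_eq_fintype_card, Fintype.card_subtype, Finset.card_filter]
  simp only [hNat]
  rw [Finset.sum_comm, ← Finset.sum_add_distrib, ← Finset.sum_add_distrib]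
  have hone : ∀ j, ((if NoL (F j) (f j) x then 1 else 0)
      + (if NoL (F j) (fun y => - f j y) x then 1 else 0))
      + ∑ y, (if (F j).Adj x y then 1 else 0) = 2 := by
    intro j
    have hside : ∀ f' : Q → ℤ, IsNumZ (F j) f' → (if NoL (F j) f' x then 1 else 0)
        + ∑ y, (if (F j).Adj x y ∧ f' y < f' x then 1 else 0) = 1 := by
      intro f' hf'
      rw [← Finset.card_filter]
      by_cases h : NoL (F j) f' x
      · rw [if_pos h, Finset.card_eq_zero.2, add_zero]
        rw [Finset.filter_eq_empty_iff]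
        rintro y _ ⟨hy, hlt⟩
        have := h y hy
        omega
      · rw [if_neg h, zero_add, Finset.card_eq_one]
        unfold NoL at h
        push Not at h
        obtain ⟨y, hy, hle⟩ := h
        have h1 := hf'.2 x y hy
        refine ⟨y, ?_⟩
        ext z
        simp only [Finset.mem_filter, Finset.mem_univ, true_and, Finset.mem_singleton]
        constructor
        · rintro ⟨hz, hlt⟩
          have h2 := hf'.2 x z hz
          exact hf'.1 (by omega)
        · rintro rfl
          exact ⟨hy, by omega⟩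
    have h1 := hside (f j) (hf j)
    have h2 := hside (fun y => - f j y) (hf j).neg
    have h3 : ∑ y, (if (F j).Adj x y then 1 else 0)
        = ∑ y, (if (F j).Adj x y ∧ f j y < f j x then 1 else 0)
          + ∑ y, (if (F j).Adj x y ∧ - f j y < - f j x then 1 else 0) := by
      rw [← Finset.sum_add_distrib]
      refine Finset.sum_congr rfl fun y _ => ?_
      by_cases hy : (F j).Adj x y
      · have := (hf j).2 x y hy
        by_cases hlt : f j y < f j x
        · rw [if_pos hy, if_pos ⟨hy, hlt⟩, if_neg (by rintro ⟨_, h⟩; omega)]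
        · rw [if_pos hy, if_neg (by rintro ⟨_, h⟩; omega), if_pos ⟨hy, by omega⟩]
      · rw [if_neg hy, if_neg (by rintro ⟨h, _⟩; exact hy h),
          if_neg (by rintro ⟨h, _⟩; exact hy h)]
    rw [h3]
    omega
  rw [Finset.sum_congr rfl fun j _ => hone j]
  simp [mul_comm]

end Pool.Agent.H60LA
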