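import Mathlib
import Pool.Agent.Helper60_LA.Slots

/-!
The lift of one linear forest on `Q` to `Q × ZMod p`, completed by matchings in the fibres over the
ends of the components.
-/

set_option autoImplicit false

open SimpleGraph

namespace Pool.Agent.H60LA

variable {Q : Type*} {p : ℕ}

/-- the neighbour on the left side -/
def Side (F : SimpleGraph Q) (f : Q → ℤ) (g : Q → ZMod p) (m : Q → ZMod p → ZMod p → Prop)
    (v w : Q × ZMod p) : Prop :=
  (F.Adj v.1 w.1 ∧ f w.1 < f v.1 ∧ w.2 - g w.1 = v.2 - g v.1) ∨ (v.1 = w.1 ∧ m v.1 v.2 w.2)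

theorem Side.unique {F : SimpleGraph Q} {f : Q → ℤ} (hf : IsNumZ F f) {g : Q → ZMod p}
    {m : Q → ZMod p → ZMod p → Prop} (hm0 : ∀ x c d, m x c d → NoL F f x)
    (hm : ∀ x c d e, m x c d → m x c e → d = e) {v w w' : Q × ZMod p}
    (h : Side F f g m v w) (h' : Side F f g m v w') : w = w' := by
  rcases h with ⟨h1, h2, h3⟩ | ⟨h1, h2⟩
  · rcases h' with ⟨h1', h2', h3'⟩ | ⟨h1', h2'⟩
    · have e1 := hf.2 _ _ h1
      have e2 := hf.2 _ _ h1'
      have e3 : w.1 = w'.1 := hf.1 (by omega)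
      refine Prod.ext e3 ?_
      have : w.2 - g w.1 = w'.2 - g w'.1 := h3.trans h3'.symm
      rw [e3] at this
      exact sub_left_injective this
    · exact absurd (hm0 _ _ _ h2' _ h1) (by omega)
  · rcases h' with ⟨h1', h2', h3'⟩ | ⟨h1', h2'⟩
    · exact absurd (hm0 _ _ _ h2 _ h1') (by omega)
    · exact Prod.ext (h1.symm.trans h1') (hm _ _ _ _ h2 h2')

theorem side_closed [Finite Q] {F : SimpleGraph Q} {f : Q → ℤ} (hf : IsNumZ F f) (g : Q → ZMod p)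
    (m : Q → ZMod p → ZMod p → Prop) (hm0 : ∀ x c d, m x c d → NoL F f x)
    (U : Finset (Q × ZMod p)) (hU : ∀ v ∈ U, ∃ w ∈ U, Side F f g m v w) (x0 xL : Q)
    (hxL : F.Reachable x0 xL) (hL : NoL F f xL) (κ : ZMod p)
    (hκ : ∃ x, F.Reachable x0 x ∧ (x, κ + g x) ∈ U) :
    ∃ κ', (∃ x, F.Reachable x0 x ∧ (x, κ' + g x) ∈ U) ∧ m xL (κ + g xL) (κ' + g xL) := by
  obtain ⟨x, ⟨hx1, hx2⟩, hmin⟩ := Set.exists_min_image
    {x | F.Reachable x0 x ∧ (x, κ + g x) ∈ U} f (Set.toFinite _) hκ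
  obtain ⟨w, hw, hs⟩ := hU _ hx2
  rcases hs with ⟨h1, h2, h3⟩ | ⟨h1, h2⟩
  · exfalso
    simp only at h1 h2 h3
    have h4 : w.2 = κ + g w.1 := by
      rw [add_sub_cancel_right] at h3
      rw [← h3]
      abel
    have h5 := hmin w.1 ⟨hx1.trans h1.reachable, by rw [← h4]; exact hw⟩
    omega
  · simp only at h1 h2
    have h3 : x = xL := (hm0 _ _ _ h2).unique hf hL (hx1.symm.trans hxL)
    subst h3
    refine ⟨w.2 - g x, ⟨x, hx1, ?_⟩, ?_⟩
    · rw [sub_add_cancel]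
      have : (x, w.2) = w := Prod.ext h1 rfl
      rwa [this]
    · rwa [sub_add_cancel]

/-- the lift of one linear forest -/
theorem exists_lift [Finite Q] {F : SimpleGraph Q} {f : Q → ℤ} (hf : IsNumZ F f)
    (g : Q → ZMod p) (mL mR : Q → ZMod p → ZMod p → Prop)
    (hL0 : ∀ x c d, mL x c d → NoL F f x) (hR0 : ∀ x c d, mR x c d → NoL F (fun y => - f y) x)
    (hLs : ∀ x c d, mL x c d → mL x d c) (hRs : ∀ x c d, mR x c d → mR x d c)
    (hLi : ∀ x c, ¬ mL x c c) (hRi : ∀ x c, ¬ mR x c c)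
    (hLm : ∀ x c d e, mL x c d → mL x c e → d = e) (hRm : ∀ x c d e, mR x c d → mR x c e → d = e)
    (hA : ∀ x y, F.Reachable x y → NoL F f x → NoL F (fun y => - f y) y →
      ∀ A : Set (ZMod p), A.Nonempty →
        (∀ κ ∈ A, ∃ κ' ∈ A, mL x (κ + g x) (κ' + g x)) →
        (∀ κ ∈ A, ∃ κ' ∈ A, mR y (κ + g y) (κ' + g y)) → False) :
    ∃ F' : SimpleGraph (Q × ZMod p), Thin F' ∧ Deg2 F' ∧
      ∀ x y c d, F'.Adj (x, c) (y, d) ↔ (F.Adj x y ∧ d - g y = c - g x) ∨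
        (x = y ∧ (mL x c d ∨ mR x c d)) := by
  classical
  let F' : SimpleGraph (Q × ZMod p) :=
    { Adj := fun v w => (F.Adj v.1 w.1 ∧ w.2 - g w.1 = v.2 - g v.1) ∨
        (v.1 = w.1 ∧ (mL v.1 v.2 w.2 ∨ mR v.1 v.2 w.2))
      symm := ⟨by
        rintro ⟨x, c⟩ ⟨y, d⟩ h
        simp only at h ⊢
        rcases h with ⟨h1, h2⟩ | ⟨h1, h2⟩
        · exact Or.inl ⟨h1.symm, h2.symm⟩
        · subst h1
          exact Or.inr ⟨rfl, h2.imp (hLs _ _ _) (hRs _ _ _)⟩⟩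
      loopless := ⟨by
        rintro ⟨x, c⟩ h
        simp only at h
        rcases h with ⟨h1, _⟩ | ⟨_, h2⟩
        · exact h1.ne rfl
        · exact h2.elim (hLi _ _) (hRi _ _)⟩ }
  have hAdj : ∀ v w, F'.Adj v w ↔ Side F f g mL v w ∨ Side F (fun y => - f y) g mR v w := by
    intro v w
    show ((F.Adj v.1 w.1 ∧ w.2 - g w.1 = v.2 - g v.1) ∨
        (v.1 = w.1 ∧ (mL v.1 v.2 w.2 ∨ mR v.1 v.2 w.2))) ↔ _
    unfold Side
    constructor
    · rintro (⟨h1, h2⟩ | ⟨h1, h2 | h2⟩)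
      · have := hf.2 _ _ h1
        by_cases hlt : f w.1 < f v.1
        · exact Or.inl (Or.inl ⟨h1, hlt, h2⟩)
        · refine Or.inr (Or.inl ⟨h1, ?_, h2⟩)
          show - f w.1 < - f v.1
          omega
      · exact Or.inl (Or.inr ⟨h1, h2⟩)
      · exact Or.inr (Or.inr ⟨h1, h2⟩)
    · rintro ((⟨h1, _, h2⟩ | ⟨h1, h2⟩) | (⟨h1, _, h2⟩ | ⟨h1, h2⟩))
      · exact Or.inl ⟨h1, h2⟩
      · exact Or.inr ⟨h1, Or.inl h2⟩
      · exact Or.inl ⟨h1, h2⟩
      · exact Or.inr ⟨h1, Or.inr h2⟩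
  have hUL : ∀ v w w', Side F f g mL v w → Side F f g mL v w' → w = w' := fun v w w' h h' =>
    h.unique hf hL0 hLm h'
  have hUR : ∀ v w w', Side F (fun y => - f y) g mR v w → Side F (fun y => - f y) g mR v w' →
      w = w' := fun v w w' h h' => h.unique hf.neg hR0 hRm h'
  refine ⟨F', ?_, ?_, fun x y c d => Iff.rfl⟩
  · intro U hU
    by_contra hcon
    push Not at hcon
    have hboth : ∀ v ∈ U, (∃ w ∈ U, Side F f g mL v w) ∧
        ∃ w ∈ U, Side F (fun y => - f y) g mR v w := by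
      intro v hv
      obtain ⟨x, hx, y, hy, hvx, hvy, hxy⟩ := hcon v hv
      rw [hAdj] at hvx hvy
      rcases hvx with h1 | h1
      · rcases hvy with h2 | h2
        · exact absurd (hUL _ _ _ h1 h2) hxy
        · exact ⟨⟨x, hx, h1⟩, y, hy, h2⟩
      · rcases hvy with h2 | h2
        · exact ⟨⟨y, hy, h2⟩, x, hx, h1⟩
        · exact absurd (hUR _ _ _ h1 h2) hxy
    obtain ⟨⟨x0, c0⟩, h0⟩ := hU
    obtain ⟨xL, hxL, hL⟩ := exists_noL hf x0
    obtain ⟨xR, hxR, hR⟩ := exists_noL hf.neg x0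
    refine hA xL xR (hxL.symm.trans hxR) hL hR {κ | ∃ x, F.Reachable x0 x ∧ (x, κ + g x) ∈ U}
      ⟨c0 - g x0, x0, Reachable.refl x0, by rwa [sub_add_cancel]⟩ ?_ ?_
    · intro κ hκ
      exact side_closed hf g mL hL0 U (fun v hv => (hboth v hv).1) x0 xL hxL hL κ hκ
    · intro κ hκ
      exact side_closed hf.neg g mR hR0 U (fun v hv => (hboth v hv).2) x0 xR hxR hR κ hκ
  · intro v x y z hx hy hz
    rw [hAdj] at hx hy hz
    rcases hx with h1 | h1 <;> rcases hy with h2 | h2 <;> rcases hz with h3 | h3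
    · exact Or.inl (hUL _ _ _ h1 h2)
    · exact Or.inl (hUL _ _ _ h1 h2)
    · exact Or.inr (Or.inl (hUL _ _ _ h1 h3))
    · exact Or.inr (Or.inr (hUR _ _ _ h2 h3))
    · exact Or.inr (Or.inr (hUL _ _ _ h2 h3))
    · exact Or.inr (Or.inl (hUR _ _ _ h1 h3))
    · exact Or.inl (hUR _ _ _ h1 h2)
    · exact Or.inl (hUR _ _ _ h1 h2)

end Pool.Agent.H60LA
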