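import Mathlib
import Pool.Agent.Helper60_LA.Lift
import Pool.Agent.Helper60_LA.Core
import Pool.Agent.Helper60_LA.CoreW

/-!
Lifting a decomposition into linear forests from `Q` to `Q × ZMod p`, with `lam` copies of the
complete graph in every fibre.
-/

set_option autoImplicit false

open SimpleGraph

namespace Pool.Agent.H60LA

variable {Q : Type*} {p : ℕ}

theorem card_conj {N : ℕ} (P R : Fin N → Prop) (h : ∀ j, ¬ (P j ∧ R j)) :
    Nat.card {j // P j ∨ R j} = Nat.card {j // P j} + Nat.card {j // R j} := by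
  classical
  simp only [Nat.card_eq_fintype_card, Fintype.card_subtype]
  rw [Finset.filter_or, Finset.card_union_of_disjoint]
  rw [Finset.disjoint_filter]
  exact fun j _ h1 h2 => h j ⟨h1, h2⟩

/-- the lift of a decomposition, `p = 2` -/
theorem lift2 [Finite Q] {N : ℕ} (F : Fin N → SimpleGraph Q) (f : Fin N → Q → ℤ)
    (hf : ∀ j, IsNumZ (F j) (f j)) (g : Fin N → Q → ZMod 2) (lam : ℕ)
    (hdeg : ∀ x, 2 * lam ≤ Nat.card {j // NoL (F j) (f j) x}
      + Nat.card {j // NoL (F j) (fun y => - f j y) x}) :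
    ∃ F' : Fin N → SimpleGraph (Q × ZMod 2), (∀ j, Thin (F' j) ∧ Deg2 (F' j)) ∧
      (∀ j x y c d, x ≠ y → ((F' j).Adj (x, c) (y, d) ↔ (F j).Adj x y ∧ d - g j y = c - g j x)) ∧
      ∀ x c d, c ≠ d → Nat.card {j // (F' j).Adj (x, c) (x, d)} = lam := by
  classical
  obtain ⟨eL, heL, hcL⟩ := exists_ends F f hf
  obtain ⟨eR, heR, hcR⟩ := exists_ends F (fun j y => - f j y) fun j => (hf j).neg
  have : Fintype (Σ j, (F j).ConnectedComponent) := by
    have : ∀ j, Finite (F j).ConnectedComponent := fun j => inferInstance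
    exact Fintype.ofFinite _
  have hdeg' : ∀ v, 2 * lam ≤ (Finset.univ.filter fun k => eL k = v).card
      + (Finset.univ.filter fun k => eR k = v).card := by
    intro v
    have h1 := hcL (fun _ => True) v
    have h2 := hcR (fun _ => True) v
    simp only [and_true] at h1 h2
    have h3 := hdeg v
    rw [← h1, ← h2] at h3
    simpa only [Nat.card_eq_fintype_card, Fintype.card_subtype] using h3
  have := Fintype.ofFinite Q
  obtain ⟨bL, bR, hb, hbb⟩ := core2 eL eR lam hdeg'
  have hex := fun j => exists_lift (hf j) (g j)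
    (fun x c d => (NoL (F j) (f j) x ∧ bL ⟨j, (F j).connectedComponentMk x⟩) ∧ c ≠ d)
    (fun x c d => (NoL (F j) (fun y => - f j y) x ∧ bR ⟨j, (F j).connectedComponentMk x⟩) ∧ c ≠ d)
    (fun x c d h => h.1.1) (fun x c d h => h.1.1) (fun x c d h => ⟨h.1, h.2.symm⟩)
    (fun x c d h => ⟨h.1, h.2.symm⟩) (fun x c h => h.2 rfl) (fun x c h => h.2 rfl)
    (fun x c d e h h' => by
      have h1 := h.2
      have h2 := h'.2
      revert h1 h2
      clear h h'
      revert c d e
      decide)
    (fun x c d e h h' => by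
      have h1 := h.2
      have h2 := h'.2
      revert h1 h2
      clear h h'
      revert c d e
      decide)
    (fun x y hxy _ _ A hA h1 h2 => by
      obtain ⟨κ, hκ⟩ := hA
      obtain ⟨_, _, h3⟩ := h1 κ hκ
      obtain ⟨_, _, h4⟩ := h2 κ hκ
      have h5 := h3.1.2
      have h6 := h4.1.2
      rw [← ConnectedComponent.sound hxy] at h6
      exact hbb _ ⟨h5, h6⟩)
  choose F' hF1 hF2 hF3 using hex
  refine ⟨F', fun j => ⟨hF1 j, hF2 j⟩, ?_, ?_⟩
  · intro j x y c d hxy
    rw [hF3]
    constructor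
    · rintro (h | ⟨h, _⟩)
      · exact h
      · exact absurd h hxy
    · exact Or.inl
  · intro x c d hcd
    have h1 : ∀ j, (F' j).Adj (x, c) (x, d) ↔
        (NoL (F j) (f j) x ∧ bL ⟨j, (F j).connectedComponentMk x⟩) ∨
          (NoL (F j) (fun y => - f j y) x ∧ bR ⟨j, (F j).connectedComponentMk x⟩) := by
      intro j
      rw [hF3]
      constructor
      · rintro (⟨h, _⟩ | ⟨_, h | h⟩)
        · exact absurd rfl h.ne
        · exact Or.inl h.1
        · exact Or.inr h.1
      · rintro (h | h)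
        · exact Or.inr ⟨rfl, Or.inl ⟨h, hcd⟩⟩
        · exact Or.inr ⟨rfl, Or.inr ⟨h, hcd⟩⟩
    simp only [h1]
    rw [card_conj, ← hcL bL, ← hcR bR, hb]
    intro j h
    exact hbb _ ⟨h.1.2, h.2.2⟩

/-- the lift of a decomposition, `p` odd -/
theorem liftp [Finite Q] [Fact p.Prime] (hp : 3 ≤ p) {N : ℕ} (F : Fin N → SimpleGraph Q)
    (f : Fin N → Q → ℤ) (hf : ∀ j, IsNumZ (F j) (f j)) (g : Fin N → Q → ZMod p) (lam : ℕ)
    (hdeg : ∀ x, p * lam ≤ Nat.card {j // NoL (F j) (f j) x}
      + Nat.card {j // NoL (F j) (fun y => - f j y) x}) :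
    ∃ F' : Fin N → SimpleGraph (Q × ZMod p), (∀ j, Thin (F' j) ∧ Deg2 (F' j)) ∧
      (∀ j x y c d, x ≠ y → ((F' j).Adj (x, c) (y, d) ↔ (F j).Adj x y ∧ d - g j y = c - g j x)) ∧
      ∀ x c d, c ≠ d → Nat.card {j // (F' j).Adj (x, c) (x, d)} = lam := by
  classical
  have : NeZero p := ⟨(Fact.out : p.Prime).ne_zero⟩
  have h2 : (2 : ZMod p) ≠ 0 := by
    intro h
    have h1 := congrArg ZMod.val h
    rw [ZMod.val_zero, show (2 : ZMod p) = ((2 : ℕ) : ZMod p) by norm_num,
      ZMod.val_natCast_of_lt (by omega)] at h1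
    omega
  obtain ⟨eL, heL, hcL⟩ := exists_ends F f hf
  obtain ⟨eR, heR, hcR⟩ := exists_ends F (fun j y => - f j y) fun j => (hf j).neg
  have : Fintype (Σ j, (F j).ConnectedComponent) := by
    have : ∀ j, Finite (F j).ConnectedComponent := fun j => inferInstance
    exact Fintype.ofFinite _
  have := Fintype.ofFinite Q
  obtain ⟨aL, aR, ha, haa⟩ := coreW p hp eL eR (fun k => g k.1 (eR k) - g k.1 (eL k))
    (fun k hk => by
      show g k.1 (eR k) - g k.1 (eL k) = 0
      rw [hk, sub_self]) lam
    (fun v => by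
      have h1 := hcL (fun _ => True) v
      have h2 := hcR (fun _ => True) v
      simp only [and_true] at h1 h2
      rw [h1, h2]
      exact hdeg v)
  have hcL' : ∀ j x, NoL (F j) (f j) x → eL ⟨j, (F j).connectedComponentMk x⟩ = x := by
    intro j x hx
    have h3 := heL ⟨j, (F j).connectedComponentMk x⟩
    exact h3.2.unique (hf j) hx (ConnectedComponent.exact h3.1)
  have hcR' : ∀ j x, NoL (F j) (fun y => - f j y) x →
      eR ⟨j, (F j).connectedComponentMk x⟩ = x := by
    intro j x hx
    have h3 := heR ⟨j, (F j).connectedComponentMk x⟩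
    exact h3.2.unique (hf j).neg hx (ConnectedComponent.exact h3.1)
  have hex := fun j => exists_lift (hf j) (g j)
    (fun x c d => (NoL (F j) (f j) x ∧
      aL ⟨j, (F j).connectedComponentMk x⟩ = some ((c + d) / 2)) ∧ c ≠ d)
    (fun x c d => (NoL (F j) (fun y => - f j y) x ∧
      aR ⟨j, (F j).connectedComponentMk x⟩ = some ((c + d) / 2)) ∧ c ≠ d)
    (fun x c d h => h.1.1) (fun x c d h => h.1.1)
    (fun x c d h => ⟨by rw [add_comm]; exact h.1, h.2.symm⟩)
    (fun x c d h => ⟨by rw [add_comm]; exact h.1, h.2.symm⟩)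
    (fun x c h => h.2 rfl) (fun x c h => h.2 rfl)
    (fun x c d e h h' => by
      have h1 := Option.some.inj (h.1.2.symm.trans h'.1.2)
      field_simp at h1
      exact add_left_cancel h1)
    (fun x c d e h h' => by
      have h1 := Option.some.inj (h.1.2.symm.trans h'.1.2)
      field_simp at h1
      exact add_left_cancel h1)
    (fun x y hxy hx hy A hA h1 h2' => by
      have hk := ConnectedComponent.sound hxy
      have hex : eL ⟨j, (F j).connectedComponentMk x⟩ = x := hcL' j x hx
      have hey : eR ⟨j, (F j).connectedComponentMk x⟩ = y := by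
        rw [hk]
        exact hcR' j y hy
      obtain ⟨κ, hκ⟩ := hA
      obtain ⟨κ1, hκ1, ⟨⟨_, h3⟩, h4⟩⟩ := h1 κ hκ
      obtain ⟨κ2, hκ2, ⟨⟨_, h5⟩, h6⟩⟩ := h2' κ hκ
      rw [← hk] at h5
      set cL := (κ + g j x + (κ1 + g j x)) / 2 with hcLd
      set cR := (κ + g j y + (κ2 + g j y)) / 2 with hcRd
      have h7 := haa _ _ h3
      rw [hex, hey] at h7
      have hne : cR - g j y ≠ cL - g j x := by
        intro h8
        apply h7
        rw [h5]
        congr 1
        linear_combination h8
      have hLcl : ∀ κ ∈ A, 2 * (cL - g j x) - κ ∈ A ∧ 2 * (cL - g j x) - κ ≠ κ := by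
        intro κ hκ
        obtain ⟨κ', hκ', ⟨⟨_, h8⟩, h9⟩⟩ := h1 κ hκ
        have h10 := Option.some.inj (h3.symm.trans h8)
        have h11 : 2 * (cL - g j x) - κ = κ' := by
          rw [h10]
          field_simp
          ring
        rw [h11]
        refine ⟨hκ', fun h => h9 (by rw [h])⟩
      have hRcl : ∀ κ ∈ A, 2 * (cR - g j y) - κ ∈ A := by
        intro κ hκ
        obtain ⟨κ', hκ', ⟨⟨_, h8⟩, h9⟩⟩ := h2' κ hκ
        rw [← hk] at h8
        have h10 := Option.some.inj (h5.symm.trans h8)
        have h11 : 2 * (cR - g j y) - κ = κ' := by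
          rw [h10]
          field_simp
          ring
        rw [h11]
        exact hκ'
      have htr : ∀ n : ℕ, κ + n * (2 * (cR - g j y) - 2 * (cL - g j x)) ∈ A := by
        intro n
        induction n with
        | zero => simpa using hκ
        | succ n ih =>
          have h8 := hRcl _ (hLcl _ ih).1
          have h9 : κ + ((n + 1 : ℕ) : ZMod p) * (2 * (cR - g j y) - 2 * (cL - g j x))
              = 2 * (cR - g j y) - (2 * (cL - g j x)
                - (κ + n * (2 * (cR - g j y) - 2 * (cL - g j x)))) := by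
            push_cast
            ring
          rw [h9]
          exact h8
      have hδ : 2 * (cR - g j y) - 2 * (cL - g j x) ≠ 0 := by
        intro h8
        apply hne
        have : 2 * ((cR - g j y) - (cL - g j x)) = 0 := by linear_combination h8
        rcases mul_eq_zero.1 this with h9 | h9
        · exact absurd h9 h2
        · exact sub_eq_zero.1 h9
      have hall : cL - g j x ∈ A := by
        have h8 := htr (ZMod.val (((cL - g j x) - κ)
          / (2 * (cR - g j y) - 2 * (cL - g j x))))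
        rw [ZMod.natCast_val, ZMod.cast_id', id, div_mul_cancel₀ _ hδ] at h8
        simpa using h8
      have h12 := (hLcl _ hall).2
      exact h12 (by ring))
  choose F' hF1 hF2 hF3 using hex
  refine ⟨F', fun j => ⟨hF1 j, hF2 j⟩, ?_, ?_⟩
  · intro j x y c d hxy
    rw [hF3]
    constructor
    · rintro (h | ⟨h, _⟩)
      · exact h
      · exact absurd h hxy
    · exact Or.inl
  · intro x c d hcd
    have h1 : ∀ j, (F' j).Adj (x, c) (x, d) ↔
        (NoL (F j) (f j) x ∧ aL ⟨j, (F j).connectedComponentMk x⟩ = some ((c + d) / 2)) ∨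
          (NoL (F j) (fun y => - f j y) x ∧
            aR ⟨j, (F j).connectedComponentMk x⟩ = some ((c + d) / 2)) := by
      intro j
      rw [hF3]
      constructor
      · rintro (⟨h, _⟩ | ⟨_, h | h⟩)
        · exact absurd rfl h.ne
        · exact Or.inl h.1
        · exact Or.inr h.1
      · rintro (h | h)
        · exact Or.inr ⟨rfl, Or.inl ⟨h, hcd⟩⟩
        · exact Or.inr ⟨rfl, Or.inr ⟨h, hcd⟩⟩
    simp only [h1]
    rw [card_conj, ← hcL (fun k => aL k = some ((c + d) / 2)),
      ← hcR (fun k => aR k = some ((c + d) / 2)), ha]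
    rintro j ⟨⟨h3, h4⟩, h5, h6⟩
    have h7 := haa _ _ h4
    rw [hcL' j x h3, hcR' j x h5, sub_self, add_zero] at h7
    exact h7 h6

end Pool.Agent.H60LA
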