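import Mathlib
import Pool.Agent.Helper60_LA.Step

/-!
Decomposition into linear forests: lifts of graphs, and Cayley multigraphs of elementary abelian
groups.
-/

set_option autoImplicit false

open SimpleGraph Finset

namespace Pool.Agent.H60LA

/-- labels with prescribed multiplicities -/
theorem exists_label {N : ℕ} {C : Type*} [Fintype C] [Nonempty C] (J : Fin N → Prop) (n : C → ℕ)
    (h : Nat.card {j // J j} = ∑ c, n c) :
    ∃ l : Fin N → C, ∀ c, Nat.card {j // J j ∧ l j = c} = n c := by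
  classical
  have hcard : Fintype.card {j // J j} = Fintype.card (Σ c, Fin (n c)) := by
    rw [← Nat.card_eq_fintype_card, h, Fintype.card_sigma]
    simp
  let e := Fintype.equivOfCardEq hcard
  have hl : ∀ (j : Fin N) (h : J j),
      (if h : J j then (e ⟨j, h⟩).1 else Classical.arbitrary C) = (e ⟨j, h⟩).1 := fun j h =>
    dif_pos h
  refine ⟨fun j => if h : J j then (e ⟨j, h⟩).1 else Classical.arbitrary C, fun c => ?_⟩
  let e1 : {j // J j ∧ (if h : J j then (e ⟨j, h⟩).1 else Classical.arbitrary C) = c}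
      ≃ {s : {j // J j} // (e s).1 = c} :=
    ⟨fun j => ⟨⟨j.1, j.2.1⟩, (hl j.1 j.2.1).symm.trans j.2.2⟩,
      fun s => ⟨s.1.1, s.1.2, (hl s.1.1 s.1.2).trans s.2⟩, fun _ => rfl, fun _ => rfl⟩
  let e2 : {s : {j // J j} // (e s).1 = c} ≃ {t : (Σ c, Fin (n c)) // t.1 = c} :=
    e.subtypeEquiv fun _ => Iff.rfl
  rw [Nat.card_congr ((e1.trans e2).trans (Equiv.sigmaSubtype c)), Nat.card_eq_fintype_card,
    Fintype.card_fin]

/-- lift of a decomposition of a multigraph on `Q` to the multigraph on `Q × ZMod p` with voltages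
`w` and with `lam` copies of the complete graph in every fibre -/
theorem lift_graph {Q : Type*} [Fintype Q] (p : ℕ) [Fact p.Prime] {N : ℕ}
    (F : Fin N → SimpleGraph Q) (hF : ∀ j, Thin (F j) ∧ Deg2 (F j)) (w : Q → Q → ZMod p → ℕ)
    (hw : ∀ x y, x ≠ y → Nat.card {j // (F j).Adj x y} = ∑ c : ZMod p, w x y c)
    (hsym : ∀ x y c, w y x (-c) = w x y c) (lam : ℕ)
    (hdeg : ∀ x, ∑ y, Nat.card {j // (F j).Adj x y} + p * lam ≤ 2 * N) :
    ∃ F' : Fin N → SimpleGraph (Q × ZMod p), (∀ j, Thin (F' j) ∧ Deg2 (F' j)) ∧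
      (∀ x y c d, x ≠ y → Nat.card {j // (F' j).Adj (x, c) (y, d)} = w x y (d - c)) ∧
      ∀ x c d, c ≠ d → Nat.card {j // (F' j).Adj (x, c) (x, d)} = lam := by
  classical
  have hnum : ∀ j, ∃ f : Q → ℤ, IsNumZ (F j) f := fun j => by
    obtain ⟨f, hf⟩ := exists_num (hF j).1 (hF j).2
    exact ⟨_, hf.toZ⟩
  choose f hf using hnum
  -- labels
  let o : Q ≃ Fin (Fintype.card Q) := Fintype.equivFin Q
  have hl0 : ∀ x y, ∃ l : Fin N → ZMod p, x ≠ y →
      ∀ c, Nat.card {j // (F j).Adj x y ∧ l j = c} = w x y c := by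
    intro x y
    by_cases hxy : x = y
    · exact ⟨fun _ => 0, fun h => absurd hxy h⟩
    · obtain ⟨l, hl⟩ := exists_label (fun j => (F j).Adj x y) (w x y) (hw x y hxy)
      exact ⟨l, fun _ => hl⟩
  choose l0 hl0 using hl0
  let ℓ : Fin N → Q → Q → ZMod p := fun j x y => if o x < o y then l0 x y j else - l0 y x j
  have hanti : ∀ j x y, (F j).Adj x y → ℓ j y x = - ℓ j x y := by
    intro j x y hxy
    have hne : o x ≠ o y := fun h => hxy.ne (o.injective h)
    rcases lt_or_gt_of_ne hne with h | h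
    · simp only [ℓ, if_pos h, if_neg h.le.not_gt]
    · simp only [ℓ, if_pos h, if_neg h.le.not_gt, neg_neg]
  have hcnt : ∀ x y, x ≠ y → ∀ c, Nat.card {j // (F j).Adj x y ∧ ℓ j x y = c} = w x y c := by
    intro x y hxy c
    have hne : o x ≠ o y := fun h => hxy (o.injective h)
    rcases lt_or_gt_of_ne hne with h | h
    · simp only [ℓ, if_pos h]
      exact hl0 x y hxy c
    · simp only [ℓ, if_neg h.le.not_gt]
      rw [← neg_neg c, hsym y x, ← hl0 y x hxy.symm (-c)]
      refine Nat.card_congr (Equiv.subtypeEquivRight fun j => ?_)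
      rw [(F j).adj_comm, neg_inj]
  have hpot := fun j => exists_pot (hF j).1 (ℓ j) (hanti j)
  choose g hg using hpot
  have hside := fun x => count_sides F f hf x
  have hmain : ∃ F' : Fin N → SimpleGraph (Q × ZMod p), (∀ j, Thin (F' j) ∧ Deg2 (F' j)) ∧
      (∀ j x y c d, x ≠ y → ((F' j).Adj (x, c) (y, d) ↔ (F j).Adj x y ∧ d - g j y = c - g j x)) ∧
      ∀ x c d, c ≠ d → Nat.card {j // (F' j).Adj (x, c) (x, d)} = lam := by
    have hdeg' : ∀ x, p * lam ≤ Nat.card {j // NoL (F j) (f j) x}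
        + Nat.card {j // NoL (F j) (fun y => - f j y) x} := by
      intro x
      have := hside x
      have := hdeg x
      omega
    rcases (Fact.out : p.Prime).eq_two_or_odd with hp | hp
    · subst hp
      exact lift2 F f hf g lam hdeg'
    · have hp3 : 3 ≤ p := by
        have := (Fact.out : p.Prime).two_le
        omega
      exact liftp hp3 F f hf g lam hdeg'
  obtain ⟨F', h1, h2, h3⟩ := hmain
  refine ⟨F', h1, fun x y c d hxy => ?_, h3⟩
  rw [← hcnt x y hxy (d - c)]
  refine Nat.card_congr (Equiv.subtypeEquivRight fun j => ?_)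
  rw [h2 j x y c d hxy]
  refine and_congr_right fun hadj => ?_
  have := hg j x y hadj
  constructor
  · intro h
    rw [this] at h
    linear_combination (-1 : ZMod p) * h
  · intro h
    rw [this, h]
    ring

/-- total multiplicity of the nonzero elements -/
def tot {V : Type*} [AddCommGroup V] [Fintype V] [DecidableEq V] (μ : V → ℕ) : ℕ :=
  ∑ v, if v = 0 then 0 else μ v

/-- the Cayley multigraph with multiplicities `μ` decomposes into `N` linear forests -/
def Dec {V : Type*} [AddCommGroup V] (μ : V → ℕ) (N : ℕ) : Prop :=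
  ∃ F : Fin N → SimpleGraph V, (∀ j, Thin (F j) ∧ Deg2 (F j)) ∧
    ∀ x y, x ≠ y → Nat.card {j // (F j).Adj x y} = μ (y - x)

theorem Dec.deg {V : Type*} [AddCommGroup V] [Fintype V] [DecidableEq V] {μ : V → ℕ} {N : ℕ}
    {F : Fin N → SimpleGraph V} (h : ∀ x y, x ≠ y → Nat.card {j // (F j).Adj x y} = μ (y - x))
    (x : V) : ∑ y, Nat.card {j // (F j).Adj x y} = tot μ := by
  unfold tot
  rw [← Equiv.sum_comp (Equiv.subRight x) (fun v => if v = 0 then 0 else μ v)]
  refine Finset.sum_congr rfl fun y _ => ?_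
  rw [Equiv.subRight_apply]
  by_cases hxy : y = x
  · subst hxy
    simp
  · rw [if_neg (sub_ne_zero.2 hxy), h x y (fun h => hxy h.symm)]

theorem Dec.of_equiv {V W : Type*} [AddCommGroup V] [AddCommGroup W] (e : V ≃+ W) {μ : V → ℕ}
    {N : ℕ} (h : Dec (fun w => μ (e.symm w)) N) : Dec μ N := by
  classical
  obtain ⟨F, h1, h2⟩ := h
  refine ⟨fun j => (F j).comap e, fun j => ⟨?_, ?_⟩, ?_⟩
  · intro U hU
    obtain ⟨v, hv, huniq⟩ := (h1 j).1 (U.image e) (hU.image e)
    obtain ⟨u, hu, rfl⟩ := mem_image.1 hv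
    refine ⟨u, hu, fun x hx y hy hx' hy' => ?_⟩
    exact e.injective (huniq _ (mem_image_of_mem _ hx) _ (mem_image_of_mem _ hy) hx' hy')
  · intro v x y z hx hy hz
    rcases (h1 j).2 (e v) (e x) (e y) (e z) hx hy hz with h | h | h
    · exact Or.inl (e.injective h)
    · exact Or.inr (Or.inl (e.injective h))
    · exact Or.inr (Or.inr (e.injective h))
  · intro x y hxy
    have := h2 (e x) (e y) (fun h => hxy (e.injective h))
    simp only [← map_sub, AddEquiv.symm_apply_apply] at this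
    exact this

/-- the step of the induction -/
theorem Dec.step {Q : Type*} [AddCommGroup Q] [Fintype Q] [DecidableEq Q] (p : ℕ) [Fact p.Prime]
    (μ : Q × ZMod p → ℕ) (hneg : ∀ v, μ (-v) = μ v) (lam N : ℕ)
    (hlam : ∀ c : ZMod p, c ≠ 0 → μ (0, c) = lam)
    (hdec : Dec (fun x => ∑ c : ZMod p, μ (x, c)) N)
    (hN : tot (fun x => ∑ c : ZMod p, μ (x, c)) + p * lam ≤ 2 * N) : Dec μ N := by
  classical
  obtain ⟨F, h1, hF⟩ := hdec
  have hdegF := Dec.deg (μ := fun x => ∑ c : ZMod p, μ (x, c)) hF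
  have hsym : ∀ (x y : Q) (c : ZMod p), μ (x - y, -c) = μ (y - x, c) := by
    intro x y c
    rw [← hneg (y - x, c)]
    congr 1
    rw [Prod.neg_mk, neg_sub]
  obtain ⟨F', hF1, hF2, hF3⟩ := lift_graph p F h1 (fun x y c => μ (y - x, c))
    (fun x y hxy => hF x y hxy) hsym lam (fun x => by
      rw [hdegF]
      exact hN)
  refine ⟨F', hF1, ?_⟩
  rintro ⟨x, c⟩ ⟨y, d⟩ hxy
  by_cases h : x = y
  · subst h
    have hcd : c ≠ d := fun h => hxy (by rw [h])
    rw [hF3 x c d hcd, Prod.mk_sub_mk, sub_self, hlam _ (sub_ne_zero.2 hcd.symm)]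
  · rw [hF2 x y c d h]
    rfl

end Pool.Agent.H60LA
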