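import Mathlib
import Pool.Agent.Helper60_LA.Main

/-!
Cayley multigraphs of elementary abelian groups with scaling invariant multiplicities.
-/

set_option autoImplicit false

open SimpleGraph Finset

namespace Pool.Agent.H60LA

universe u

theorem thin_bot {V : Type*} : Thin (⊥ : SimpleGraph V) := by
  intro U hU
  obtain ⟨v, hv⟩ := hU
  exact ⟨v, hv, fun x _ y _ h => absurd h (by simp)⟩

theorem deg2_bot {V : Type*} : Deg2 (⊥ : SimpleGraph V) := by
  intro v x y z h
  exact absurd h (by simp)

theorem tot_equiv {V W : Type*} [AddCommGroup V] [Fintype V] [DecidableEq V] [AddCommGroup W]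
    [Fintype W] [DecidableEq W] (e : W ≃+ V) (μ : V → ℕ) : tot (fun w => μ (e w)) = tot μ := by
  unfold tot
  rw [← Equiv.sum_comp e.toEquiv (fun v => if v = 0 then 0 else μ v)]
  refine Finset.sum_congr rfl fun w _ => ?_
  have : (e.toEquiv w = 0) ↔ (w = 0) := by
    show e w = 0 ↔ w = 0
    exact e.map_eq_zero_iff
  simp only [this]
  rfl

theorem tot_prod {Q : Type*} [AddCommGroup Q] [Fintype Q] [DecidableEq Q] {p : ℕ}
    [Fact p.Prime] (μ : Q × ZMod p → ℕ) (lam : ℕ) (hlam : ∀ c : ZMod p, c ≠ 0 → μ (0, c) = lam) :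
    tot μ = tot (fun x => ∑ c : ZMod p, μ (x, c)) + (p - 1) * lam := by
  classical
  have : NeZero p := ⟨(Fact.out : p.Prime).ne_zero⟩
  unfold tot
  rw [Fintype.sum_prod_type]
  have h1 : ∀ x : Q, (∑ c : ZMod p, if (x, c) = 0 then 0 else μ (x, c))
      = (if x = 0 then 0 else ∑ c : ZMod p, μ (x, c)) + if x = 0 then (p - 1) * lam else 0 := by
    intro x
    by_cases hx : x = 0
    · subst hx
      rw [if_pos rfl, if_pos rfl, zero_add]
      have h2 : ∀ c : ZMod p, (if ((0 : Q), c) = 0 then 0 else μ (0, c))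
          = if c = 0 then 0 else lam := by
        intro c
        by_cases hc : c = 0
        · subst hc
          rw [if_pos (show ((0 : Q), (0 : ZMod p)) = 0 from rfl), if_pos rfl]
        · rw [if_neg hc, if_neg (fun h => hc (Prod.ext_iff.1 h).2), hlam c hc]
      rw [sum_congr rfl fun c _ => h2 c, ← sum_erase_add _ _ (mem_univ (0 : ZMod p)), if_pos rfl,
        add_zero, sum_congr rfl fun c hc => if_neg (mem_erase.1 hc).1, sum_const,
        card_erase_of_mem (mem_univ _), card_univ, ZMod.card, smul_eq_mul]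
    · rw [if_neg hx, if_neg hx, add_zero]
      refine sum_congr rfl fun c _ => ?_
      rw [if_neg (fun h => hx (Prod.ext_iff.1 h).1)]
  rw [sum_congr rfl fun x _ => h1 x, sum_add_distrib, sum_ite_eq' univ (0 : Q)]
  simp

theorem dec_main (p : ℕ) [Fact p.Prime] : ∀ n : ℕ, ∀ (V : Type u) [AddCommGroup V]
    [Module (ZMod p) V] [Fintype V] [DecidableEq V], Fintype.card V ≤ n → ∀ (μ : V → ℕ),
    (∀ t : ZMod p, t ≠ 0 → ∀ v, μ (t • v) = μ v) → ∀ lam N : ℕ, (∀ v, v ≠ 0 → μ v ≤ lam) →
    tot μ + lam ≤ 2 * N → Dec μ N := by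
  classical
  have : NeZero p := ⟨(Fact.out : p.Prime).ne_zero⟩
  have hp2 := (Fact.out : p.Prime).two_le
  intro n
  induction n with
  | zero =>
    intro V _ _ _ _ hV
    exfalso
    have := Fintype.card_pos (α := V)
    omega
  | succ n ih =>
    intro V _ _ _ _ hV μ hμ lam N hle hN
    by_cases hall : ∀ v : V, v = 0
    · refine ⟨fun _ => ⊥, fun _ => ⟨thin_bot, deg2_bot⟩, ?_⟩
      intro x y hxy
      exact absurd ((hall x).trans (hall y).symm) hxy
    · push Not at hall
      obtain ⟨v0, hv0⟩ := hall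
      obtain ⟨a, ha, hmax⟩ := (univ.erase (0 : V)).exists_max_image μ
        ⟨v0, mem_erase.2 ⟨hv0, mem_univ _⟩⟩
      have ha0 : a ≠ 0 := (mem_erase.1 ha).1
      obtain ⟨Q, hQ⟩ := Submodule.exists_isCompl (Submodule.span (ZMod p) {a})
      let φ : (Q × ZMod p) ≃ₗ[ZMod p] V :=
        (LinearEquiv.prodCongr (LinearEquiv.refl (ZMod p) Q)
          (LinearEquiv.toSpanNonzeroSingleton (ZMod p) V a ha0)).trans
          (Submodule.prodEquivOfIsCompl Q _ hQ.symm)
      have hφ : ∀ c : ZMod p, φ (0, c) = c • a := by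
        intro c
        simp [φ]
      have := Fintype.ofFinite Q
      set μ' : Q × ZMod p → ℕ := fun w => μ (φ w) with hμ'
      have hlam' : ∀ c : ZMod p, c ≠ 0 → μ' (0, c) = μ a := by
        intro c hc
        show μ (φ (0, c)) = μ a
        rw [hφ, hμ c hc]
      have hinv' : ∀ t : ZMod p, t ≠ 0 → ∀ v, μ' (t • v) = μ' v := by
        intro t ht v
        show μ (φ (t • v)) = μ (φ v)
        rw [map_smul, hμ t ht]
      have hneg' : ∀ v, μ' (-v) = μ' v := by
        intro v
        have := hinv' (-1) (neg_ne_zero.2 one_ne_zero) v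
        rwa [neg_smul, one_smul] at this
      have htot : tot μ = tot (fun x => ∑ c : ZMod p, μ' (x, c)) + (p - 1) * μ a := by
        rw [← tot_prod μ' (μ a) hlam', ← tot_equiv φ.toAddEquiv μ]
        rfl
      have hmaxle : μ a ≤ lam := hle a ha0
      have hmax' : ∀ w : Q × ZMod p, w ≠ 0 → μ' w ≤ μ a := by
        intro w hw
        refine hmax _ (mem_erase.2 ⟨?_, mem_univ _⟩)
        intro h
        exact hw (φ.map_eq_zero_iff.1 h)
      have hcard : Fintype.card Q ≤ n := by
        have h1 : Fintype.card V = Fintype.card Q * p := by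
          rw [← Fintype.card_congr φ.toEquiv, Fintype.card_prod, ZMod.card]
        have h2 := Fintype.card_pos (α := Q)
        nlinarith
      have hpl : (p - 1) * μ a + μ a = p * μ a := by
        obtain ⟨q, hq⟩ : ∃ q, p = q + 1 := ⟨p - 1, by omega⟩
        rw [hq, Nat.add_sub_cancel]
        ring
      have hN' : tot (fun x => ∑ c : ZMod p, μ' (x, c)) + p * μ a ≤ 2 * N := by
        omega
      have hdec : Dec (fun x => ∑ c : ZMod p, μ' (x, c)) N := by
        refine ih Q hcard _ ?_ (p * μ a) N ?_ hN'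
        · intro t ht x
          rw [← Equiv.sum_comp (Equiv.mulLeft₀ t ht)]
          refine sum_congr rfl fun c _ => ?_
          exact hinv' t ht (x, c)
        · intro x hx
          calc ∑ c : ZMod p, μ' (x, c) ≤ ∑ c : ZMod p, μ a :=
                sum_le_sum fun c _ => hmax' _ fun h => hx (Prod.ext_iff.1 h).1
            _ = p * μ a := by rw [sum_const, card_univ, ZMod.card, smul_eq_mul]
      have hstep := Dec.step p μ' hneg' (μ a) N hlam' hdec hN'
      refine Dec.of_equiv φ.symm.toAddEquiv ?_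
      exact hstep

/-- Cayley multigraphs of elementary abelian groups -/
theorem dec_module (p : ℕ) [Fact p.Prime] (V : Type u) [AddCommGroup V]
    [Module (ZMod p) V] [Fintype V] [DecidableEq V] (μ : V → ℕ)
    (hμ : ∀ t : ZMod p, t ≠ 0 → ∀ v, μ (t • v) = μ v) (lam N : ℕ) (hle : ∀ v, v ≠ 0 → μ v ≤ lam)
    (hN : tot μ + lam ≤ 2 * N) : Dec μ N :=
  dec_main p _ V le_rfl μ hμ lam N hle hN

end Pool.Agent.H60LA
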