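import Mathlib
import Pool.Agent.Helper60_LA.Induct
import Pool.Agent.Helper14_LA.Final

/-!
The linear arboricity of the Cayley graphs of elementary abelian groups.
-/

set_option autoImplicit false

open SimpleGraph Finset

namespace Pool.Agent.H60LA

/-- The linear arboricity of `G`: the least `k` such that `G` is the union of `k` linear forests
(acyclic graphs all of whose degrees are at most two) on the vertex set of `G`. -/
noncomputable def la {V : Type} (G : SimpleGraph V) : ℕ :=
  sInf {k : ℕ | ∃ F : Fin k → SimpleGraph V,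
    (∀ i, (F i).IsAcyclic ∧ ∀ v, ((F i).neighborSet v).ncard ≤ 2) ∧ (⨆ i, F i) = G}

theorem cayley_neighbor {V : Type} [AddCommGroup V] (S : Set V) (h0 : (0 : V) ∉ S)
    (hneg : ∀ s ∈ S, -s ∈ S) (u v : V) : (addCayley S).Adj u v ↔ v - u ∈ S := by
  rw [addCayley_adj]
  constructor
  · rintro ⟨_, h | h⟩
    · rwa [neg_add_eq_sub] at h
    · have := hneg _ h
      rwa [neg_add_rev, neg_neg, neg_add_eq_sub] at this
  · intro h
    refine ⟨?_, Or.inl (by rwa [neg_add_eq_sub])⟩
    rintro rfl
    rw [sub_self] at h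
    exact h0 h

theorem cayley_degree {V : Type} [AddCommGroup V] (S : Set V) (h0 : (0 : V) ∉ S)
    (hneg : ∀ s ∈ S, -s ∈ S) (u : V) : ((addCayley S).neighborSet u).ncard = S.ncard := by
  have h : (addCayley S).neighborSet u = (fun s => s + u) '' S := by
    ext v
    rw [mem_neighborSet, cayley_neighbor S h0 hneg, Set.mem_image]
    constructor
    · intro h
      exact ⟨v - u, h, sub_add_cancel v u⟩
    · rintro ⟨s, hs, rfl⟩
      rwa [add_sub_cancel_right]
  rw [h, Set.ncard_image_of_injective _ (add_left_injective u)]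

/-- decomposition of the Cayley multigraph -/
theorem multigraph (p : ℕ) [Fact p.Prime] (V : Type) [AddCommGroup V] [Module (ZMod p) V]
    [Finite V] (μ : V → ℕ) (lam N : ℕ) (hμ : ∀ t : ZMod p, t ≠ 0 → ∀ v, μ (t • v) = μ v)
    (hle : ∀ v, v ≠ 0 → μ v ≤ lam) (hN : (∑ᶠ v ∈ ({0}ᶜ : Set V), μ v) + lam ≤ 2 * N) :
    ∃ F : Fin N → SimpleGraph V, (∀ i, (F i).IsAcyclic ∧ ∀ v, ((F i).neighborSet v).ncard ≤ 2) ∧
      ∀ x y, x ≠ y → Nat.card {i // (F i).Adj x y} = μ (y - x) := by
  classical
  have := Fintype.ofFinite V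
  have htot : tot μ = ∑ᶠ v ∈ ({0}ᶜ : Set V), μ v := by
    rw [finsum_mem_eq_finite_toFinset_sum _ (Set.toFinite _)]
    unfold tot
    rw [← Finset.sum_filter_add_sum_filter_not univ (fun v : V => v = 0)]
    rw [Finset.sum_eq_zero (s := univ.filter fun v : V => v = 0), zero_add]
    · refine Finset.sum_congr ?_ ?_
      · ext v
        simp
      · intro v hv
        have : v ≠ 0 := by simpa using hv
        rw [if_neg this]
    · intro v hv
      rw [if_pos (mem_filter.1 hv).2]
  rw [← htot] at hN
  obtain ⟨F, h1, h2⟩ := dec_module p V μ hμ lam N hle hN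
  exact ⟨F, fun i => ⟨(h1 i).1.isAcyclic, (h1 i).2.ncard_le⟩, h2⟩

/-- Cayley graphs -/
theorem cayley (p : ℕ) [Fact p.Prime] (V : Type) [AddCommGroup V] [Module (ZMod p) V]
    [Finite V] (S : Set V) (h0 : (0 : V) ∉ S) (hne : S.Nonempty)
    (hS : ∀ t : ZMod p, t ≠ 0 → ∀ s ∈ S, t • s ∈ S) :
    (∀ v, ((addCayley S).neighborSet v).ncard = S.ncard) ∧
      la (addCayley S) = (S.ncard + 2) / 2 := by
  classical
  have hneg : ∀ s ∈ S, -s ∈ S := by
    intro s hs
    have := hS (-1) (neg_ne_zero.2 one_ne_zero) s hs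
    rwa [neg_smul, one_smul] at this
  have hdeg := cayley_degree S h0 hneg
  refine ⟨hdeg, ?_⟩
  have hsum : ∑ᶠ v ∈ ({0}ᶜ : Set V), (if v ∈ S then 1 else 0) = S.ncard := by
    rw [finsum_mem_eq_finite_toFinset_sum _ (Set.toFinite _), ← Finset.card_filter,
      Set.ncard_eq_toFinset_card S (Set.toFinite _)]
    congr 1
    ext v
    simp only [Finset.mem_filter, Set.Finite.mem_toFinset, Set.mem_compl_iff,
      Set.mem_singleton_iff]
    constructor
    · exact fun h => h.2
    · intro h
      refine ⟨?_, h⟩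
      rintro rfl
      exact h0 h
  have hup : Helper14_LA.CoveredBy (addCayley S) ((S.ncard + 2) / 2) := by
    obtain ⟨F, h1, h2⟩ := multigraph p V (fun v => if v ∈ S then 1 else 0) 1 ((S.ncard + 2) / 2)
      (by
        intro t ht v
        have h3 : t • v ∈ S ↔ v ∈ S := by
          constructor
          · intro h
            have := hS t⁻¹ (inv_ne_zero ht) _ h
            rwa [smul_smul, inv_mul_cancel₀ ht, one_smul] at this
          · exact hS t ht v
        simp only [h3])
      (by
        intro v _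
        split_ifs <;> omega)
      (by
        rw [hsum]
        omega)
    refine ⟨F, h1, ?_⟩
    ext x y
    rw [iSup_adj, cayley_neighbor S h0 hneg]
    by_cases hxy : x = y
    · subst hxy
      rw [sub_self]
      constructor
      · rintro ⟨i, hi⟩
        exact absurd rfl hi.ne
      · intro h
        exact absurd h h0
    · have h3 := h2 x y hxy
      constructor
      · rintro ⟨i, hi⟩
        by_contra hcon
        rw [if_neg hcon] at h3
        have : Nonempty {i // (F i).Adj x y} := ⟨⟨i, hi⟩⟩
        have := Nat.card_pos (α := {i // (F i).Adj x y})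
        omega
      · intro h
        rw [if_pos h] at h3
        have : 0 < Nat.card {i // (F i).Adj x y} := by omega
        obtain ⟨i⟩ := (Nat.card_pos_iff.1 this).1
        exact ⟨i.1, i.2⟩
  have : Nonempty V := ⟨0⟩
  refine le_antisymm (Nat.sInf_le hup) ?_
  have hmem : Helper14_LA.CoveredBy (addCayley S) (la (addCayley S)) :=
    Nat.sInf_mem (s := {k : ℕ | Helper14_LA.CoveredBy (addCayley S) k}) ⟨_, hup⟩
  exact Helper14_LA.lower_bound (addCayley S) ((Set.ncard_pos (Set.toFinite _)).2 hne) hdeg hmem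

end Pool.Agent.H60LA
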