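import Mathlib
import Pool.Agent.Helper60_LA.Final

/-!
Clique blow-ups (strong products with complete graphs).
-/

set_option autoImplicit false

open SimpleGraph Finset

namespace Pool.Agent.H60LA

/-- an acyclic finite graph is thin -/
theorem thin_of_isAcyclic {V : Type*} [Finite V] {F : SimpleGraph V} (h : F.IsAcyclic) :
    Thin F := by
  classical
  intro U hU
  by_contra hcon
  push Not at hcon
  let L : SimpleGraph U := F.comap ((↑) : U → V)
  have hL : L.IsAcyclic := h.comap ⟨(↑), fun h => h⟩ Subtype.val_injective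
  obtain ⟨u, hu⟩ := hU
  have h1 := Helper14_LA.comp_sum L hL (L.connectedComponentMk ⟨u, hu⟩)
  have h2 : ∀ v : U, 2 ≤ (L.neighborSet v).ncard := by
    intro v
    obtain ⟨x, hx, y, hy, hvx, hvy, hxy⟩ := hcon v.1 v.2
    have h3 : ({⟨x, hx⟩, ⟨y, hy⟩} : Set U) ⊆ L.neighborSet v := by
      rintro z (rfl | hz)
      · exact hvx
      · rw [Set.mem_singleton_iff] at hz
        subst hz
        exact hvy
    have h4 := Set.ncard_le_ncard h3 (Set.toFinite _)
    rwa [Set.ncard_pair (fun h => hxy (congrArg Subtype.val h))] at h4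
  have h3 : (∑ v : U with L.connectedComponentMk v = L.connectedComponentMk ⟨u, hu⟩, 2)
      ≤ ∑ v : U with L.connectedComponentMk v = L.connectedComponentMk ⟨u, hu⟩,
        (L.neighborSet v).ncard := Finset.sum_le_sum fun v _ => h2 v
  rw [Finset.sum_const, smul_eq_mul] at h3
  omega

theorem deg2_of_ncard {V : Type*} [Finite V] {F : SimpleGraph V}
    (h : ∀ v, (F.neighborSet v).ncard ≤ 2) : Deg2 F := by
  intro v x y z hx hy hz
  by_contra hcon
  push Not at hcon
  have h1 : 2 < (F.neighborSet v).ncard := (Set.two_lt_ncard_iff (Set.toFinite _)).2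
    ⟨x, y, z, hx, hy, hz, hcon.1, hcon.2.1, hcon.2.2⟩
  have := h v
  omega

theorem Thin.mono {V : Type*} {F F' : SimpleGraph V} (h : Thin F) (hle : F' ≤ F) : Thin F' := by
  intro U hU
  obtain ⟨v, hv, hv'⟩ := h U hU
  exact ⟨v, hv, fun x hx y hy h1 h2 => hv' x hx y hy (hle h1) (hle h2)⟩

theorem Deg2.mono {V : Type*} {F F' : SimpleGraph V} (h : Deg2 F) (hle : F' ≤ F) : Deg2 F' :=
  fun v x y z h1 h2 h3 => h v x y z (hle h1) (hle h2) (hle h3)

open Classical in
/-- partition of the edges of `G` into `n` linear forests -/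
def PDec {V : Type*} (G : SimpleGraph V) (n : ℕ) : Prop :=
  ∃ F : Fin n → SimpleGraph V, (∀ j, Thin (F j) ∧ Deg2 (F j)) ∧
    ∀ x y, Nat.card {j // (F j).Adj x y} = if G.Adj x y then 1 else 0

theorem PDec.of_cover {V : Type*} [Finite V] {G : SimpleGraph V} {n : ℕ}
    (h : Helper14_LA.CoveredBy G n) : PDec G n := by
  classical
  obtain ⟨F, hF, hsup⟩ := h
  let F' : Fin n → SimpleGraph V := fun j =>
    { Adj := fun x y => (F j).Adj x y ∧ ∀ i, i < j → ¬ (F i).Adj x y
      symm := ⟨fun x y h => ⟨h.1.symm, fun i hi hi' => h.2 i hi hi'.symm⟩⟩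
      loopless := ⟨fun x h => h.1.ne rfl⟩ }
  have hle : ∀ j, F' j ≤ F j := fun j x y h => h.1
  refine ⟨F', fun j => ⟨(thin_of_isAcyclic (hF j).1).mono (hle j),
    (deg2_of_ncard (hF j).2).mono (hle j)⟩, fun x y => ?_⟩
  split_ifs with hxy
  · rw [← hsup, iSup_adj] at hxy
    have hne : (univ.filter fun j => (F j).Adj x y).Nonempty := by
      obtain ⟨j, hj⟩ := hxy
      exact ⟨j, by simpa using hj⟩
    obtain ⟨j, hj, hmin⟩ := exists_min_image _ (fun j => j) hne
    rw [mem_filter] at hj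
    have huniq : ∀ i : {j // (F' j).Adj x y}, i.1 = j := by
      rintro ⟨i, hi1, hi2⟩
      rcases lt_trichotomy i j with h | h | h
      · exact absurd (hmin i (by rw [mem_filter]; exact ⟨mem_univ _, hi1⟩)) (not_le.2 h)
      · exact h
      · exact absurd hj.2 (hi2 j h)
    rw [Nat.card_eq_one_iff_unique]
    refine ⟨⟨fun a b => Subtype.ext ((huniq a).trans (huniq b).symm)⟩, ⟨⟨j, hj.2, ?_⟩⟩⟩
    intro i hi hi'
    exact absurd (hmin i (by rw [mem_filter]; exact ⟨mem_univ _, hi'⟩)) (not_le.2 hi)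
  · have : IsEmpty {j // (F' j).Adj x y} := by
      refine ⟨fun j => hxy ?_⟩
      rw [← hsup, iSup_adj]
      exact ⟨j.1, j.2.1⟩
    exact Nat.card_of_isEmpty

theorem PDec.cover {V : Type*} {G : SimpleGraph V} {n : ℕ} (h : PDec G n) :
    Helper14_LA.CoveredBy G n := by
  classical
  obtain ⟨F, h1, h2⟩ := h
  refine ⟨F, fun i => ⟨(h1 i).1.isAcyclic, (h1 i).2.ncard_le⟩, ?_⟩
  ext x y
  rw [iSup_adj]
  have h3 := h2 x y
  constructor
  · rintro ⟨i, hi⟩
    by_contra hcon
    rw [if_neg hcon] at h3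
    have : Nonempty {i // (F i).Adj x y} := ⟨⟨i, hi⟩⟩
    have := Nat.card_pos (α := {i // (F i).Adj x y})
    omega
  · intro h
    rw [if_pos h] at h3
    have : 0 < Nat.card {i // (F i).Adj x y} := by omega
    obtain ⟨i⟩ := (Nat.card_pos_iff.1 this).1
    exact ⟨i.1, i.2⟩

theorem PDec.iso {V W : Type*} {G : SimpleGraph V} {H : SimpleGraph W} {n : ℕ} (e : W ≃ V)
    (he : ∀ x y, H.Adj x y ↔ G.Adj (e x) (e y)) (h : PDec G n) : PDec H n := by
  classical
  obtain ⟨F, h1, h2⟩ := h
  refine ⟨fun j => (F j).comap e, fun j => ⟨?_, ?_⟩, ?_⟩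
  · intro U hU
    obtain ⟨v, hv, huniq⟩ := (h1 j).1 (U.image e) (hU.image e)
    obtain ⟨u, hu, rfl⟩ := mem_image.1 hv
    refine ⟨u, hu, fun x hx y hy hx' hy' => ?_⟩
    exact e.injective (huniq _ (mem_image_of_mem _ hx) _ (mem_image_of_mem _ hy) hx' hy')
  · intro v x y z hx hy hz
    rcases (h1 j).2 (e v) (e x) (e y) (e z) hx hy hz with h | h | h
    · exact Or.inl (e.injective h)
    · exact Or.inr (Or.inl (e.injective h))
    · exact Or.inr (Or.inr (e.injective h))
  · intro x y
    have := h2 (e x) (e y)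
    simp only [he]
    exact this

/-- The clique blow-up (strong product with a complete graph): every vertex of `G` is replaced by
a clique on `C`, adjacent vertices of `G` by completely joined cliques. -/
def blow {V : Type*} (G : SimpleGraph V) (C : Type*) : SimpleGraph (V × C) where
  Adj x y := x ≠ y ∧ (x.1 = y.1 ∨ G.Adj x.1 y.1)
  symm := ⟨fun _ _ h => ⟨h.1.symm, h.2.imp Eq.symm fun h => h.symm⟩⟩
  loopless := ⟨fun _ h => h.1 rfl⟩

theorem blow_degree {V C : Type*} [Finite V] [Finite C] (G : SimpleGraph V) (x : V × C) :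
    ((blow G C).neighborSet x).ncard + 1 = ((G.neighborSet x.1).ncard + 1) * Nat.card C := by
  have h1 : (blow G C).neighborSet x
      = ((insert x.1 (G.neighborSet x.1)) ×ˢ (Set.univ : Set C)) \ {x} := by
    ext y
    simp only [mem_neighborSet, Set.mem_sdiff, Set.mem_prod, Set.mem_insert_iff, Set.mem_univ,
      and_true, Set.mem_singleton_iff]
    constructor
    · rintro ⟨h1, h2⟩
      exact ⟨h2.imp Eq.symm id, fun h => h1 h.symm⟩
    · rintro ⟨h1, h2⟩
      exact ⟨fun h => h2 h.symm, h1.imp Eq.symm id⟩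
  have h2 : x ∈ (insert x.1 (G.neighborSet x.1)) ×ˢ (Set.univ : Set C) := by
    simp
  rw [h1, Set.ncard_sdiff_singleton_add_one h2 (Set.toFinite _), Set.ncard_prod,
    Set.ncard_insert_of_notMem (by simp) (Set.toFinite _), Set.ncard_univ]

theorem blow_prime {V : Type*} [Finite V] {G : SimpleGraph V} {n : ℕ} (p : ℕ) [Fact p.Prime]
    (h : PDec G n) (hdeg : ∀ v, (G.neighborSet v).ncard + 1 ≤ 2 * n) :
    PDec (blow G (ZMod p)) (p * n) := by
  classical
  have := Fintype.ofFinite V
  have : NeZero p := ⟨(Fact.out : p.Prime).ne_zero⟩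
  obtain ⟨F, h1, h2⟩ := h
  let F2 : Fin (p * n) → SimpleGraph V := fun j => F (finProdFinEquiv.symm j).2
  have hcount : ∀ x y, Nat.card {j // (F2 j).Adj x y} = p * if G.Adj x y then 1 else 0 := by
    intro x y
    rw [← h2 x y]
    have e : {j // (F2 j).Adj x y} ≃ Fin p × {j // (F j).Adj x y} :=
      ((finProdFinEquiv.symm).subtypeEquiv (q := fun a => (F a.2).Adj x y)
        fun _ => Iff.rfl).trans
        ⟨fun a => (a.1.1, ⟨a.1.2, a.2⟩), fun a => ⟨(a.1, a.2.1), a.2.2⟩, fun _ => rfl, fun _ => rfl⟩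
    rw [Nat.card_congr e, Nat.card_prod, Nat.card_eq_fintype_card, Fintype.card_fin]
  obtain ⟨F', hF1, hF2, hF3⟩ := lift_graph p F2 (fun j => h1 _)
    (fun x y _ => if G.Adj x y then 1 else 0)
    (fun x y _ => by
      rw [hcount, sum_const, card_univ, ZMod.card, smul_eq_mul])
    (fun x y c => by simp only [G.adj_comm]) 1
    (fun x => by
      simp only [hcount]
      rw [← mul_sum, ← card_filter]
      have h3 : (univ.filter fun y => G.Adj x y).card = (G.neighborSet x).ncard := by
        rw [Set.ncard_eq_toFinset_card _ (Set.toFinite _)]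
        congr 1
        ext y
        simp
      rw [h3]
      have := hdeg x
      nlinarith)
  refine ⟨F', hF1, ?_⟩
  rintro ⟨x, c⟩ ⟨y, d⟩
  by_cases hxy : x = y
  · subst hxy
    by_cases hcd : c = d
    · subst hcd
      simp
    · rw [hF3 x c d hcd, if_pos]
      exact ⟨fun h => hcd (Prod.ext_iff.1 h).2, Or.inl rfl⟩
  · rw [hF2 x y c d hxy]
    have h3 : (blow G (ZMod p)).Adj (x, c) (y, d) ↔ G.Adj x y := by
      constructor
      · rintro ⟨_, h | h⟩
        · exact absurd h hxy
        · exact h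
      · intro h
        exact ⟨fun h => hxy (Prod.ext_iff.1 h).1, Or.inr h⟩
    simp only [h3]

theorem blow_all {V : Type*} [Finite V] {G : SimpleGraph V} {n : ℕ}
    (h : PDec G n) (hdeg : ∀ v, (G.neighborSet v).ncard + 1 ≤ 2 * n) (c : ℕ) (hc : 0 < c) :
    PDec (blow G (Fin c)) (c * n) := by
  induction c using induction_on_primes with
  | zero => omega
  | one =>
    rw [one_mul]
    refine PDec.iso (Equiv.prodUnique V (Fin 1)) ?_ h
    rintro ⟨x, i⟩ ⟨y, j⟩
    constructor
    · rintro ⟨h1, h2 | h2⟩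
      · exact absurd (Prod.ext h2 (Subsingleton.elim _ _)) h1
      · exact h2
    · intro h2
      exact ⟨fun h => h2.ne (Prod.ext_iff.1 h).1, Or.inr h2⟩
  | prime_mul p a hp ih =>
    have ha : 0 < a := Nat.pos_of_mul_pos_left hc
    have : Fact p.Prime := ⟨hp⟩
    have : NeZero p := ⟨hp.ne_zero⟩
    have h1 := blow_prime p (ih ha) (fun v => by
      rw [blow_degree, Nat.card_eq_fintype_card, Fintype.card_fin]
      have := hdeg v.1
      nlinarith)
    rw [mul_assoc]
    have hcard : Fintype.card (Fin (p * a)) = Fintype.card (Fin a × ZMod p) := by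
      rw [Fintype.card_fin, Fintype.card_prod, Fintype.card_fin, ZMod.card, mul_comm]
    let e : V × Fin (p * a) ≃ (V × Fin a) × ZMod p :=
      ((Equiv.refl V).prodCongr (Fintype.equivOfCardEq hcard)).trans
        (Equiv.prodAssoc V (Fin a) (ZMod p)).symm
    have he : ∀ x, (e x).1.1 = x.1 := fun x => rfl
    refine PDec.iso e ?_ h1
    intro x y
    have h2 : e x ≠ e y ↔ x ≠ y := e.injective.ne_iff
    constructor
    · rintro ⟨h3, h4⟩
      refine ⟨h2.2 h3, ?_⟩
      by_cases h5 : (e x).1 = (e y).1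
      · exact Or.inl h5
      · exact Or.inr ⟨h5, h4⟩
    · rintro ⟨h3, h4⟩
      refine ⟨h2.1 h3, ?_⟩
      rcases h4 with h4 | h4
      · left
        rw [← he x, h4, he y]
      · exact h4.2

theorem blow_la {V : Type} [Finite V] [Nonempty V] (G : SimpleGraph V) (r c : ℕ) (hr : Odd r)
    (hc : 0 < c) (hG : ∀ v, (G.neighborSet v).ncard = r) (hla : la G = (r + 2) / 2) :
    (∀ v, ((blow G (Fin c)).neighborSet v).ncard = (r + 1) * c - 1) ∧
      la (blow G (Fin c)) = (((r + 1) * c - 1) + 2) / 2 := by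
  obtain ⟨k, hk⟩ := hr
  have hdeg : ∀ v, ((blow G (Fin c)).neighborSet v).ncard = (r + 1) * c - 1 := by
    intro v
    have := blow_degree (C := Fin c) G v
    rw [hG, Nat.card_eq_fintype_card, Fintype.card_fin] at this
    omega
  refine ⟨hdeg, ?_⟩
  have hne : {k : ℕ | Helper14_LA.CoveredBy G k}.Nonempty := by
    refine ⟨_, Helper14_LA.greedy r _ G rfl fun v => (hG v).le⟩
  have hcov : Helper14_LA.CoveredBy G (k + 1) := by
    have h1 : Helper14_LA.CoveredBy G (la G) := Nat.sInf_mem hne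
    rw [hla] at h1
    have h2 : (r + 2) / 2 = k + 1 := by omega
    rwa [h2] at h1
  have h1 := blow_all (PDec.of_cover hcov) (fun v => by rw [hG, hk]; omega) c hc
  have h2 : (((r + 1) * c - 1) + 2) / 2 = c * (k + 1) := by
    have h3 : (r + 1) * c = 2 * (c * (k + 1)) := by
      rw [hk]
      ring
    have h4 : 0 < c * (k + 1) := by positivity
    rw [h3]
    omega
  have hrpos : 0 < (r + 1) * c - 1 := by
    have h3 : (r + 1) * c = 2 * (c * (k + 1)) := by
      rw [hk]
      ring
    have h4 : 0 < c * (k + 1) := by positivity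
    omega
  have : Nonempty (Fin c) := ⟨⟨0, hc⟩⟩
  rw [h2]
  refine le_antisymm (Nat.sInf_le h1.cover) ?_
  have hmem : Helper14_LA.CoveredBy (blow G (Fin c)) (la (blow G (Fin c))) :=
    Nat.sInf_mem (s := {k : ℕ | Helper14_LA.CoveredBy (blow G (Fin c)) k}) ⟨_, h1.cover⟩
  have := Helper14_LA.lower_bound (blow G (Fin c)) hrpos hdeg hmem
  omega

end Pool.Agent.H60LA
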