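import Mathlib
import Pool.Agent.Helper60_LA.BlowUp

/-!
Cayley multigraphs of nilpotent groups, constant on a normal subgroup with elementary abelian
quotient.
-/

set_option autoImplicit false

open SimpleGraph Finset
open scoped commutatorElement

namespace Pool.Agent.H60LA

universe u

theorem exists_central {Γ : Type*} [Group Γ] [Group.IsNilpotent Γ] (A : Subgroup Γ) [A.Normal]
    (hA : A ≠ ⊥) : ∃ z ∈ A, z ≠ 1 ∧ z ∈ Subgroup.center Γ := by
  classical
  obtain ⟨n, hn⟩ := Group.IsNilpotent.nilpotent Γ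
  have hex : ∃ n, A ⊓ Subgroup.upperCentralSeries Γ n ≠ ⊥ := ⟨n, by rwa [hn, inf_top_eq]⟩
  have h1 := Nat.find_spec hex
  have h2 := fun m => Nat.find_min hex (m := m)
  generalize Nat.find hex = k at h1 h2
  cases k with
  | zero =>
    rw [Subgroup.upperCentralSeries_zero, inf_bot_eq] at h1
    exact absurd rfl h1
  | succ m =>
    have h3 : A ⊓ Subgroup.upperCentralSeries Γ m = ⊥ := by
      by_contra hcon
      exact h2 m (Nat.lt_succ_self m) hcon
    obtain ⟨z, hz, hz1⟩ := (Subgroup.ne_bot_iff_exists_ne_one).1 h1 |>.imp fun z hz => by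
      exact (⟨z.2, fun h => hz (Subtype.ext h)⟩ : z.1 ∈ A ⊓ Subgroup.upperCentralSeries Γ (m + 1) ∧
        z.1 ≠ 1)
    refine ⟨z.1, hz.1, hz1, ?_⟩
    rw [Subgroup.mem_center_iff]
    intro g
    have h4 : ⁅z.1, g⁆ ∈ A ⊓ Subgroup.upperCentralSeries Γ m := by
      refine ⟨?_, Subgroup.mem_upperCentralSeries_succ_iff.1 hz.2 g⟩
      rw [commutatorElement_def, mul_assoc, mul_assoc]
      refine A.mul_mem hz.1 ?_
      rw [← mul_assoc]
      exact (inferInstance : A.Normal).conj_mem _ (A.inv_mem hz.1) g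
    rw [h3, Subgroup.mem_bot, commutatorElement_eq_one_iff_mul_comm] at h4
    exact h4.symm

theorem exists_central_prime {Γ : Type*} [Group Γ] [Finite Γ] [Group.IsNilpotent Γ]
    (A : Subgroup Γ) [A.Normal] (hA : A ≠ ⊥) :
    ∃ z ∈ A, ∃ q : ℕ, q.Prime ∧ orderOf z = q ∧ z ∈ Subgroup.center Γ := by
  obtain ⟨z, hz, hz1, hzc⟩ := exists_central A hA
  have h1 : orderOf z ≠ 1 := fun h => hz1 (orderOf_eq_one_iff.1 h)
  obtain ⟨q, hq, hdvd⟩ := Nat.exists_prime_and_dvd h1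
  obtain ⟨k, hk⟩ := hdvd
  refine ⟨z ^ k, A.pow_mem hz k, q, hq, ?_, (Subgroup.center Γ).pow_mem hzc k⟩
  have h2 : 0 < orderOf z := orderOf_pos z
  have h3 : 0 < k := by
    rcases Nat.eq_zero_or_pos k with h | h
    · rw [h, mul_zero] at hk
      omega
    · exact h
  rw [orderOf_pow_of_dvd h3.ne' ⟨q, by rw [hk, mul_comm]⟩, hk, Nat.mul_div_cancel _ h3]

/-- total multiplicity -/
noncomputable def totG {Γ : Type*} [Group Γ] [Fintype Γ] (μ : Γ → ℕ) : ℕ :=
  ∑ g, Set.indicator {g | g ≠ 1} μ g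

/-- decomposition of the Cayley multigraph -/
def DecG {Γ : Type*} [Group Γ] (μ : Γ → ℕ) (N : ℕ) : Prop :=
  ∃ F : Fin N → SimpleGraph Γ, (∀ j, Thin (F j) ∧ Deg2 (F j)) ∧
    ∀ x y, x ≠ y → Nat.card {j // (F j).Adj x y} = μ (x⁻¹ * y)

theorem DecG.deg {Γ : Type*} [Group Γ] [Fintype Γ] {μ : Γ → ℕ} {N : ℕ}
    {F : Fin N → SimpleGraph Γ} (h : ∀ x y, x ≠ y → Nat.card {j // (F j).Adj x y} = μ (x⁻¹ * y))
    (x : Γ) : ∑ y, Nat.card {j // (F j).Adj x y} = totG μ := by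
  unfold totG
  rw [← Equiv.sum_comp (Equiv.mulLeft x⁻¹) (fun g => Set.indicator {g | g ≠ 1} μ g)]
  refine Finset.sum_congr rfl fun y _ => ?_
  rw [Equiv.coe_mulLeft]
  by_cases hxy : x = y
  · subst hxy
    simp
  · rw [Set.indicator_of_mem (show x⁻¹ * y ≠ 1 from fun h => hxy (inv_mul_eq_one.1 h)), h x y hxy]

/-- image of the multiplicities in the quotient -/
noncomputable def push {Γ : Type*} [Group Γ] [Fintype Γ] (Z : Subgroup Γ) (μ : Γ → ℕ)
    (x : Γ ⧸ Z) : ℕ := ∑ g : Γ, Set.indicator {g : Γ | (g : Γ ⧸ Z) = x} μ g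

/-- total multiplicity of a coset -/
noncomputable def cs {Γ : Type*} [Group Γ] [Fintype Γ] (A : Subgroup Γ) (μ : Γ → ℕ) (g : Γ) : ℕ :=
  ∑ h : Γ, Set.indicator {h : Γ | g⁻¹ * h ∈ A} μ h

/-- exchange of the sums -/
theorem sum_push {Γ : Type*} [Group Γ] [Fintype Γ] (Z : Subgroup Γ) [Fintype (Γ ⧸ Z)] (μ : Γ → ℕ)
    (P : Set (Γ ⧸ Z)) :
    ∑ x, Set.indicator P (push Z μ) x = ∑ h : Γ, Set.indicator {h : Γ | (h : Γ ⧸ Z) ∈ P} μ h := by
  classical
  unfold push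
  have h3 : ∀ x : Γ ⧸ Z, Set.indicator P
      (fun x => ∑ g : Γ, Set.indicator {g : Γ | (g : Γ ⧸ Z) = x} μ g) x
      = ∑ h : Γ, Set.indicator {x | (h : Γ ⧸ Z) = x}
        (fun _ => Set.indicator {h : Γ | (h : Γ ⧸ Z) ∈ P} μ h) x := by
    intro x
    by_cases hx : x ∈ P
    · rw [Set.indicator_of_mem hx]
      refine sum_congr rfl fun h _ => ?_
      by_cases hh : (h : Γ ⧸ Z) = x
      · rw [Set.indicator_of_mem (show h ∈ {g : Γ | (g : Γ ⧸ Z) = x} from hh),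
          Set.indicator_of_mem (show x ∈ {x | (h : Γ ⧸ Z) = x} from hh),
          Set.indicator_of_mem (show h ∈ {h : Γ | (h : Γ ⧸ Z) ∈ P} from by
            rw [Set.mem_ofPred_eq, hh]
            exact hx)]
      · rw [Set.indicator_of_notMem (show h ∉ {g : Γ | (g : Γ ⧸ Z) = x} from hh),
          Set.indicator_of_notMem (show x ∉ {x | (h : Γ ⧸ Z) = x} from hh)]
    · rw [Set.indicator_of_notMem hx]
      symm
      refine sum_eq_zero fun h _ => ?_
      by_cases hh : (h : Γ ⧸ Z) = x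
      · rw [Set.indicator_of_mem (show x ∈ {x | (h : Γ ⧸ Z) = x} from hh),
          Set.indicator_of_notMem (show h ∉ {h : Γ | (h : Γ ⧸ Z) ∈ P} from
            fun hcon => hx (by rw [← hh]; exact hcon))]
      · rw [Set.indicator_of_notMem (show x ∉ {x | (h : Γ ⧸ Z) = x} from hh)]
  rw [sum_congr rfl fun x _ => h3 x, sum_comm]
  refine sum_congr rfl fun h _ => ?_
  rw [sum_eq_single (h : Γ ⧸ Z)]
  · rw [Set.indicator_of_mem (show (h : Γ ⧸ Z) ∈ {x | (h : Γ ⧸ Z) = x} from rfl)]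
  · intro x _ hx
    rw [Set.indicator_of_notMem (show x ∉ {x | (h : Γ ⧸ Z) = x} from fun h => hx h.symm)]
  · intro hcon
    exact absurd (mem_univ _) hcon

theorem cs_push {Γ : Type*} [Group Γ] [Fintype Γ] (Z A : Subgroup Γ) [Z.Normal] (hZA : Z ≤ A)
    [Fintype (Γ ⧸ Z)] (μ : Γ → ℕ) (g : Γ) :
    cs (A.map (QuotientGroup.mk' Z)) (push Z μ) (g : Γ ⧸ Z) = cs A μ g := by
  unfold cs
  rw [sum_push]
  have h1 : ∀ h : Γ, ((g : Γ ⧸ Z)⁻¹ * (h : Γ ⧸ Z) ∈ A.map (QuotientGroup.mk' Z)) ↔ g⁻¹ * h ∈ A := by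
    intro h
    have h2 : (A.map (QuotientGroup.mk' Z)).comap (QuotientGroup.mk' Z) = A :=
      Subgroup.comap_map_eq_self (by rw [QuotientGroup.ker_mk']; exact hZA)
    have h4 : g⁻¹ * h ∈ A ↔ g⁻¹ * h ∈ (A.map (QuotientGroup.mk' Z)).comap (QuotientGroup.mk' Z) := by
      rw [h2]
    rw [h4, Subgroup.mem_comap]
    rfl
  refine sum_congr rfl fun h _ => ?_
  congr 1
  ext h
  exact h1 h

theorem tot_push {Γ : Type*} [Group Γ] [Fintype Γ] (Z : Subgroup Γ) [Z.Normal]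
    [Fintype (Γ ⧸ Z)] (μ : Γ → ℕ) (lam : ℕ) (hlam : ∀ h ∈ Z, h ≠ 1 → μ h = lam) :
    totG μ = totG (push Z μ) + (Nat.card Z - 1) * lam := by
  classical
  unfold totG
  rw [sum_push]
  have h5 : (Nat.card Z - 1) * lam
      = ∑ h : Γ, Set.indicator {h : Γ | h ∈ Z ∧ h ≠ 1} (fun _ => lam) h := by
    have h7 : ∀ h : Γ, Set.indicator {h : Γ | h ∈ Z ∧ h ≠ 1} (fun _ => lam) h
        = if h ∈ Z ∧ h ≠ 1 then lam else 0 := fun h => by
      by_cases hh : h ∈ Z ∧ h ≠ 1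
      · rw [if_pos hh, Set.indicator_of_mem (show h ∈ {h : Γ | h ∈ Z ∧ h ≠ 1} from hh)]
      · rw [if_neg hh, Set.indicator_of_notMem (show h ∉ {h : Γ | h ∈ Z ∧ h ≠ 1} from hh)]
    rw [sum_congr rfl fun h _ => h7 h, ← sum_filter, sum_const, smul_eq_mul]
    congr 1
    have h6 : (univ.filter fun h : Γ => h ∈ Z ∧ h ≠ 1)
        = (univ.filter fun h : Γ => h ∈ Z).erase 1 := by
      ext h
      simp [and_comm]
    rw [h6, card_erase_of_mem (by simp [Z.one_mem]), Nat.card_eq_fintype_card,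
      Fintype.card_subtype]
  rw [h5, ← sum_add_distrib]
  refine sum_congr rfl fun h _ => ?_
  have h8 : (h : Γ ⧸ Z) ≠ 1 ↔ h ∉ Z := not_congr (QuotientGroup.eq_one_iff h)
  by_cases hh : h ∈ Z
  · rw [Set.indicator_of_notMem (show h ∉ {h : Γ | (h : Γ ⧸ Z) ∈ {g | g ≠ 1}} from
      fun hcon => (h8.1 hcon) hh), zero_add]
    by_cases h1 : h = 1
    · rw [Set.indicator_of_notMem (show h ∉ {g : Γ | g ≠ 1} from fun hcon => hcon h1),
        Set.indicator_of_notMem (show h ∉ {h : Γ | h ∈ Z ∧ h ≠ 1} from fun hcon => hcon.2 h1)]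
    · rw [Set.indicator_of_mem (show h ∈ {g : Γ | g ≠ 1} from h1),
        Set.indicator_of_mem (show h ∈ {h : Γ | h ∈ Z ∧ h ≠ 1} from ⟨hh, h1⟩), hlam h hh h1]
  · have h1 : h ≠ 1 := fun h1 => hh (h1 ▸ Z.one_mem)
    rw [Set.indicator_of_mem (show h ∈ {g : Γ | g ≠ 1} from h1),
      Set.indicator_of_mem (show h ∈ {h : Γ | (h : Γ ⧸ Z) ∈ {g | g ≠ 1}} from h8.2 hh),
      Set.indicator_of_notMem (show h ∉ {h : Γ | h ∈ Z ∧ h ≠ 1} from fun hcon => hh hcon.1),
      add_zero]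

/-- the step of the induction -/
theorem DecG.step {Γ : Type*} [Group Γ] [Fintype Γ] (z : Γ) (hz : z ∈ Subgroup.center Γ) (q : ℕ)
    [Fact q.Prime] (hq : orderOf z = q) (Z : Subgroup Γ) (hZ : Z = Subgroup.zpowers z) [Z.Normal]
    [Fintype (Γ ⧸ Z)] (μ : Γ → ℕ)
    (hinv : ∀ g, μ g⁻¹ = μ g) (lam N : ℕ) (hlam : ∀ h ∈ Z, h ≠ 1 → μ h = lam)
    (hdec : DecG (push Z μ) N)
    (hN : totG (push Z μ) + q * lam ≤ 2 * N) : DecG μ N := by
  classical
  have : NeZero q := ⟨(Fact.out : q.Prime).ne_zero⟩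
  have hq2 := (Fact.out : q.Prime).two_le
  let ζ : ZMod q → Γ := fun c => z ^ c.val
  have hmod : ∀ n, z ^ (n % q) = z ^ n := fun n => by
    have := pow_mod_orderOf z n
    rwa [hq] at this
  have hζadd : ∀ c d, ζ (c + d) = ζ c * ζ d := by
    intro c d
    simp only [ζ]
    rw [ZMod.val_add, ← pow_add, hmod]
  have hζ0 : ζ 0 = 1 := by
    simp only [ζ]
    rw [ZMod.val_zero, pow_zero]
  have hζneg : ∀ c, ζ (-c) = (ζ c)⁻¹ := by
    intro c
    have h1 := hζadd (-c) c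
    rw [neg_add_cancel, hζ0] at h1
    exact eq_inv_of_mul_eq_one_left h1.symm
  have hζinj : Function.Injective ζ := by
    intro c d hcd
    have h1 : z ^ c.val = z ^ d.val := hcd
    have h2 : c.val ≡ d.val [MOD orderOf z] := pow_eq_pow_iff_modEq.1 h1
    rw [hq] at h2
    have h3 : c.val = d.val := Nat.ModEq.eq_of_lt_of_lt h2 (ZMod.val_lt c) (ZMod.val_lt d)
    exact ZMod.val_injective q h3
  have hζmem : ∀ c, ζ c ∈ Z := fun c => by
    rw [hZ]
    exact Subgroup.pow_mem _ (Subgroup.mem_zpowers z) _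
  have hζsurj : ∀ h ∈ Z, ∃ c, ζ c = h := by
    intro h hh
    rw [hZ] at hh
    obtain ⟨k, hk⟩ := (mem_powers_iff_mem_zpowers (x := z) (y := h)).2 hh
    refine ⟨(k : ZMod q), ?_⟩
    simp only [ζ]
    rw [ZMod.val_natCast, hmod]
    exact hk
  have hζcomm : ∀ c g, g * ζ c = ζ c * g := by
    intro c g
    exact Subgroup.mem_center_iff.1 ((Subgroup.center Γ).pow_mem hz _) g
  have hmk : ∀ (g : Γ) c, ((g * ζ c : Γ) : Γ ⧸ Z) = (g : Γ ⧸ Z) := by
    intro g c
    exact QuotientGroup.mk_mul_of_mem g (hζmem c)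
  -- sums over the cosets
  have hpush : ∀ g : Γ, ∑ c : ZMod q, μ (g * ζ c) = push Z μ (g : Γ ⧸ Z) := by
    intro g
    unfold push
    rw [← sum_subset (s₁ := univ.image fun c => g * ζ c) (subset_univ _)]
    · rw [sum_image]
      · refine sum_congr rfl fun c _ => ?_
        rw [Set.indicator_of_mem (show g * ζ c ∈ {h : Γ | (h : Γ ⧸ Z) = (g : Γ ⧸ Z)} from
          hmk g c)]
      · intro c _ d _ hcd
        exact hζinj (mul_left_cancel hcd)
    · intro h _ hh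
      rw [Set.indicator_of_notMem]
      intro hcon
      apply hh
      have h1 : g⁻¹ * h ∈ Z := QuotientGroup.eq.1 (show (g : Γ ⧸ Z) = (h : Γ ⧸ Z) from hcon.symm)
      obtain ⟨c, hc⟩ := hζsurj _ h1
      exact mem_image.2 ⟨c, mem_univ _, by rw [hc]; group⟩
  obtain ⟨F, hF1, hF2⟩ := hdec
  have hdegF := DecG.deg (μ := push Z μ) hF2
  obtain ⟨F', hG1, hG2, hG3⟩ := lift_graph q F hF1
    (fun x y c => μ ((Quotient.out x)⁻¹ * Quotient.out y * ζ c))
    (fun x y hxy => by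
      rw [hF2 x y hxy, hpush]
      congr 1
      rw [QuotientGroup.mk_mul, QuotientGroup.mk_inv, QuotientGroup.out_eq', QuotientGroup.out_eq'])
    (fun x y c => by
      rw [hζneg, ← hinv ((Quotient.out x)⁻¹ * Quotient.out y * ζ c)]
      congr 1
      rw [mul_inv_rev, mul_inv_rev, inv_inv]
      have h1 : (ζ c)⁻¹ = ζ (-c) := (hζneg c).symm
      rw [h1, ← hζcomm])
    lam (fun x => by
      rw [hdegF]
      exact hN)
  -- transport
  let e0 : (Γ ⧸ Z) × ZMod q → Γ := fun x => Quotient.out x.1 * ζ x.2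
  have he0 : ∀ x, ((e0 x : Γ) : Γ ⧸ Z) = x.1 := by
    intro x
    show ((Quotient.out x.1 * ζ x.2 : Γ) : Γ ⧸ Z) = x.1
    rw [hmk, QuotientGroup.out_eq']
  have hinj : Function.Injective e0 := by
    intro x y hxy
    have h1 : x.1 = y.1 := by
      rw [← he0 x, ← he0 y, hxy]
    refine Prod.ext h1 ?_
    have h2 : Quotient.out x.1 * ζ x.2 = Quotient.out y.1 * ζ y.2 := hxy
    rw [h1] at h2
    exact hζinj (mul_left_cancel h2)
  have hsurj : Function.Surjective e0 := by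
    intro g
    have h1 : (Quotient.out (g : Γ ⧸ Z))⁻¹ * g ∈ Z := by
      refine QuotientGroup.eq.1 ?_
      exact QuotientGroup.out_eq' _
    obtain ⟨c, hc⟩ := hζsurj _ h1
    refine ⟨((g : Γ ⧸ Z), c), ?_⟩
    show Quotient.out (g : Γ ⧸ Z) * ζ c = g
    rw [hc]
    group
  let e := Equiv.ofBijective e0 ⟨hinj, hsurj⟩
  refine ⟨fun j => (F' j).comap e.symm, fun j => ⟨?_, ?_⟩, ?_⟩
  · intro U hU
    obtain ⟨v, hv, huniq⟩ := (hG1 j).1 (U.image e.symm) (hU.image e.symm)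
    obtain ⟨u, hu, rfl⟩ := mem_image.1 hv
    refine ⟨u, hu, fun x hx y hy hx' hy' => ?_⟩
    exact e.symm.injective
      (huniq _ (mem_image_of_mem _ hx) _ (mem_image_of_mem _ hy) hx' hy')
  · intro v x y w hx hy hw
    rcases (hG1 j).2 (e.symm v) (e.symm x) (e.symm y) (e.symm w) hx hy hw with h | h | h
    · exact Or.inl (e.symm.injective h)
    · exact Or.inr (Or.inl (e.symm.injective h))
    · exact Or.inr (Or.inr (e.symm.injective h))
  · intro g h hgh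
    obtain ⟨⟨x, c⟩, rfl⟩ := e.surjective g
    obtain ⟨⟨y, d⟩, rfl⟩ := e.surjective h
    simp only [comap_adj, Equiv.symm_apply_apply]
    have h1 : (e (x, c))⁻¹ * e (y, d) = (Quotient.out x)⁻¹ * Quotient.out y * ζ (d - c) := by
      calc (e (x, c))⁻¹ * e (y, d) = (Quotient.out x * ζ c)⁻¹ * (Quotient.out y * ζ d) := rfl
        _ = ζ (-c) * (Quotient.out x)⁻¹ * (Quotient.out y * ζ d) := by rw [mul_inv_rev, hζneg]
        _ = (Quotient.out x)⁻¹ * ζ (-c) * (Quotient.out y * ζ d) := by rw [← hζcomm]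
        _ = (Quotient.out x)⁻¹ * (ζ (-c) * Quotient.out y) * ζ d := by group
        _ = (Quotient.out x)⁻¹ * (Quotient.out y * ζ (-c)) * ζ d := by rw [← hζcomm (-c)]
        _ = (Quotient.out x)⁻¹ * Quotient.out y * ζ (d - c) := by
          rw [sub_eq_add_neg, add_comm d, hζadd]
          group
    by_cases hxy : x = y
    · subst hxy
      have hcd : c ≠ d := fun hcd => hgh (by rw [hcd])
      rw [hG3 x c d hcd, h1, inv_mul_cancel, one_mul]
      refine (hlam _ (hζmem _) ?_).symm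
      intro hcon
      rw [← hζ0] at hcon
      exact hcd (sub_eq_zero.1 (hζinj hcon)).symm
    · rw [hG2 x y c d hxy, h1]

end Pool.Agent.H60LA
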