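import Mathlib
import Pool.Agent.Helper60_LA.Nilp

/-!
Cayley multigraphs of nilpotent groups: the induction.
-/

set_option autoImplicit false

open SimpleGraph Finset

namespace Pool.Agent.H60LA

universe u

theorem cs_bot {Γ : Type*} [Group Γ] [Fintype Γ] (μ : Γ → ℕ) (g : Γ) : cs ⊥ μ g = μ g := by
  classical
  unfold cs
  rw [sum_eq_single g]
  · rw [Set.indicator_of_mem]
    show g⁻¹ * g ∈ (⊥ : Subgroup Γ)
    rw [inv_mul_cancel]
    exact Subgroup.one_mem _
  · intro h _ hh
    rw [Set.indicator_of_notMem]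
    intro hcon
    have h1 : g⁻¹ * h ∈ (⊥ : Subgroup Γ) := hcon
    rw [Subgroup.mem_bot, inv_mul_eq_one] at h1
    exact hh h1.symm
  · intro hcon
    exact absurd (mem_univ _) hcon

/-- the elementary abelian case -/
theorem decG_elem (p : ℕ) [Fact p.Prime] (Γ : Type u) [Group Γ] [Fintype Γ]
    (hcomm : ∀ g h : Γ, g * h = h * g) (hpow : ∀ g : Γ, g ^ p = 1) (μ : Γ → ℕ) (β N : ℕ)
    (hle : ∀ g, g ≠ 1 → μ g ≤ β) (hinv : ∀ t : ℕ, ¬ p ∣ t → ∀ g, μ (g ^ t) = μ g)
    (hN : totG μ + β ≤ 2 * N) : DecG μ N := by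
  classical
  have : NeZero p := ⟨(Fact.out : p.Prime).ne_zero⟩
  let : CommGroup Γ := { (inferInstance : Group Γ) with mul_comm := hcomm }
  let : Module (ZMod p) (Additive Γ) := AddCommGroup.zmodModule (n := p) fun x => by
    exact hpow x.toMul
  have hsmul : ∀ (t : ZMod p) (x : Additive Γ), (t • x).toMul = x.toMul ^ t.val := by
    intro t x
    have h1 : t • x = t.val • x := by
      conv_lhs => rw [← ZMod.natCast_zmod_val t]
      exact Nat.cast_smul_eq_nsmul (ZMod p) t.val x
    rw [h1]
    exact toMul_nsmul _ _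
  obtain ⟨F, hF1, hF2⟩ := dec_module p (Additive Γ) (fun x => μ x.toMul) (by
      intro t ht x
      show μ (t • x).toMul = μ x.toMul
      rw [hsmul]
      refine hinv _ ?_ _
      intro hdvd
      have h1 := Nat.eq_zero_of_dvd_of_lt hdvd (ZMod.val_lt t)
      exact ht ((ZMod.val_eq_zero t).1 h1)) β N
    (fun x hx => hle _ fun h => hx (by
      exact h)) (by
      refine le_trans (le_of_eq ?_) hN
      congr 1
      unfold tot totG
      refine Fintype.sum_equiv Additive.toMul _ _ fun x => ?_
      by_cases hx : x = 0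
      · rw [if_pos hx, Set.indicator_of_notMem]
        intro h
        exact h hx
      · rw [if_neg hx, Set.indicator_of_mem]
        exact hx)
  refine ⟨F, hF1, fun x y hxy => ?_⟩
  have := hF2 x y hxy
  have h2 : (Additive.ofMul y - Additive.ofMul x).toMul = x⁻¹ * y := by
    rw [toMul_sub, toMul_ofMul, toMul_ofMul, div_eq_mul_inv, hcomm]
  rw [← h2]
  exact this

theorem decG_main (p : ℕ) [Fact p.Prime] : ∀ n : ℕ, ∀ (Γ : Type u) [Group Γ] [Fintype Γ]
    [Group.IsNilpotent Γ] (A : Subgroup Γ) [A.Normal], Fintype.card Γ ≤ n →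
    (∀ g h : Γ, g * h * g⁻¹ * h⁻¹ ∈ A) → (∀ g : Γ, g ^ p ∈ A) → ∀ μ : Γ → ℕ,
    (∀ g, μ g⁻¹ = μ g) → ∀ lam β N : ℕ, lam ≤ β → (∀ a ∈ A, a ≠ 1 → μ a = lam) →
    (∀ g, g ∉ A → cs A μ g ≤ β + (Nat.card A - 1) * lam) →
    (∀ t : ℕ, ¬ p ∣ t → ∀ g, cs A μ (g ^ t) = cs A μ g) →
    totG μ + β ≤ 2 * N → DecG μ N := by
  classical
  intro n
  induction n with
  | zero =>
    intro Γ _ _ _ A _ hcard
    exfalso
    have := Fintype.card_pos (α := Γ)
    omega
  | succ n ih =>
    intro Γ _ _ _ A _ hcard hcomm hpow μ hsym lam β N hlb hlam hle hinv hN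
    by_cases hA : A = ⊥
    · subst hA
      have h1 : Nat.card (⊥ : Subgroup Γ) = 1 := Subgroup.card_bot
      refine decG_elem p Γ ?_ ?_ μ β N ?_ ?_ hN
      · intro g h
        have h2 := hcomm g h
        rw [Subgroup.mem_bot] at h2
        exact (commutatorElement_eq_one_iff_mul_comm).1 h2
      · intro g
        have h2 := hpow g
        rwa [Subgroup.mem_bot] at h2
      · intro g hg
        have h2 := hle g (fun h => hg (Subgroup.mem_bot.1 h))
        rw [cs_bot, h1] at h2
        simpa using h2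
      · intro t ht g
        have h2 := hinv t ht g
        rwa [cs_bot, cs_bot] at h2
    · obtain ⟨z, hzA, q, hq, hzq, hzc⟩ := exists_central_prime A hA
      have : Fact q.Prime := ⟨hq⟩
      have hq2 := hq.two_le
      obtain ⟨Z, hZ⟩ : ∃ Z : Subgroup Γ, Z = Subgroup.zpowers z := ⟨_, rfl⟩
      have hZc : Z ≤ Subgroup.center Γ := by
        rw [hZ, Subgroup.zpowers_le]
        exact hzc
      have hZn : Z.Normal := ⟨fun a ha g => by
        have h2 := Subgroup.mem_center_iff.1 (hZc ha) g
        rw [h2, mul_assoc, mul_inv_cancel, mul_one]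
        exact ha⟩
      have hZA : Z ≤ A := by
        rw [hZ, Subgroup.zpowers_le]
        exact hzA
      have hZcard : Nat.card Z = q := by
        rw [hZ, Nat.card_zpowers, hzq]
      have := Fintype.ofFinite (Γ ⧸ Z)
      have hcardΓ : Nat.card Γ = Nat.card (Γ ⧸ Z) * q := by
        rw [← hZcard]
        exact Subgroup.card_eq_card_quotient_mul_card_subgroup Z
      have hcard' : Fintype.card (Γ ⧸ Z) ≤ n := by
        rw [Nat.card_eq_fintype_card, Nat.card_eq_fintype_card] at hcardΓ
        have := Fintype.card_pos (α := Γ ⧸ Z)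
        nlinarith
      have hA'n : (A.map (QuotientGroup.mk' Z)).Normal :=
        Subgroup.Normal.map inferInstance _ (QuotientGroup.mk'_surjective Z)
      have hlamZ : ∀ h ∈ Z, h ≠ 1 → μ h = lam := fun h hh h1 => hlam h (hZA hh) h1
      have htot := tot_push Z μ lam hlamZ
      rw [hZcard] at htot
      have hmemA : ∀ g : Γ, (g : Γ ⧸ Z) ∈ A.map (QuotientGroup.mk' Z) ↔ g ∈ A := by
        intro g
        have h2 : (A.map (QuotientGroup.mk' Z)).comap (QuotientGroup.mk' Z) = A :=
          Subgroup.comap_map_eq_self (by rw [QuotientGroup.ker_mk']; exact hZA)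
        have h4 : g ∈ A ↔ g ∈ (A.map (QuotientGroup.mk' Z)).comap (QuotientGroup.mk' Z) := by
          rw [h2]
        rw [h4, Subgroup.mem_comap]
        rfl
      -- order of the image
      have hcardA : Nat.card A = Nat.card (A.map (QuotientGroup.mk' Z)) * q := by
        have h5 : Nat.card A = Nat.card (A.map (QuotientGroup.mk' Z)) * Nat.card Z := by
          have h6 := Subgroup.card_eq_card_quotient_mul_card_subgroup A
          have h7 := Subgroup.card_eq_card_quotient_mul_card_subgroup
            (A.map (QuotientGroup.mk' Z))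
          have h8 := Subgroup.card_eq_card_quotient_mul_card_subgroup Z
          have h9 : Nat.card (Γ ⧸ A) = Nat.card ((Γ ⧸ Z) ⧸ (A.map (QuotientGroup.mk' Z))) :=
            (Nat.card_congr (QuotientGroup.quotientQuotientEquivQuotient Z A hZA).toEquiv).symm
          rw [h6, h9, h7, mul_assoc] at h8
          have h10 : 0 < Nat.card ((Γ ⧸ Z) ⧸ (A.map (QuotientGroup.mk' Z))) := Nat.card_pos
          exact Nat.eq_of_mul_eq_mul_left h10 h8
        rw [h5, hZcard]
      have hdec : DecG (push Z μ) N := by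
        refine ih (Γ ⧸ Z) (A.map (QuotientGroup.mk' Z)) hcard' ?_ ?_ (push Z μ) ?_ (q * lam)
          (β + (q - 1) * lam) N ?_ ?_ ?_ ?_ ?_
        · intro x y
          obtain ⟨g, rfl⟩ := QuotientGroup.mk_surjective x
          obtain ⟨h, rfl⟩ := QuotientGroup.mk_surjective y
          exact (hmemA (g * h * g⁻¹ * h⁻¹)).2 (hcomm g h)
        · intro x
          obtain ⟨g, rfl⟩ := QuotientGroup.mk_surjective x
          exact (hmemA (g ^ p)).2 (hpow g)
        · intro x
          unfold push
          rw [← Equiv.sum_comp (Equiv.inv Γ)]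
          refine sum_congr rfl fun g _ => ?_
          rw [Equiv.inv_apply]
          have h3 : ((g⁻¹ : Γ) : Γ ⧸ Z) = x⁻¹ ↔ (g : Γ ⧸ Z) = x := by
            rw [QuotientGroup.mk_inv, inv_inj]
          by_cases hg : (g : Γ ⧸ Z) = x
          · rw [Set.indicator_of_mem (show g ∈ {g : Γ | (g : Γ ⧸ Z) = x} from hg),
              Set.indicator_of_mem (show g⁻¹ ∈ {g : Γ | (g : Γ ⧸ Z) = x⁻¹} from h3.2 hg), hsym]
          · rw [Set.indicator_of_notMem (show g ∉ {g : Γ | (g : Γ ⧸ Z) = x} from hg),
              Set.indicator_of_notMem (show g⁻¹ ∉ {g : Γ | (g : Γ ⧸ Z) = x⁻¹} from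
                fun h => hg (h3.1 h))]
        · obtain ⟨r, hr⟩ : ∃ r, q = r + 1 := ⟨q - 1, by omega⟩
          rw [hr, Nat.add_sub_cancel]
          nlinarith
        · intro x hx hx1
          obtain ⟨g, rfl⟩ := QuotientGroup.mk_surjective x
          have hgA := (hmemA g).1 hx
          have hgZ : g ∉ Z := fun h => hx1 ((QuotientGroup.eq_one_iff g).2 h)
          unfold push
          have h3 : ∀ h : Γ, Set.indicator {h : Γ | (h : Γ ⧸ Z) = (g : Γ ⧸ Z)} μ h
              = if h ∈ univ.filter (fun h : Γ => (h : Γ ⧸ Z) = (g : Γ ⧸ Z)) then lam else 0 := by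
            intro h
            by_cases hh : (h : Γ ⧸ Z) = (g : Γ ⧸ Z)
            · have hm : h ∈ univ.filter (fun h : Γ => (h : Γ ⧸ Z) = (g : Γ ⧸ Z)) :=
                mem_filter.2 ⟨mem_univ _, hh⟩
              rw [Set.indicator_of_mem (show h ∈ {h : Γ | (h : Γ ⧸ Z) = (g : Γ ⧸ Z)} from hh),
                if_pos hm]
              refine hlam h ((hmemA h).1 (by rw [hh]; exact hx)) ?_
              rintro rfl
              exact hx1 hh.symm
            · have hm : h ∉ univ.filter (fun h : Γ => (h : Γ ⧸ Z) = (g : Γ ⧸ Z)) :=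
                fun hcon => hh (mem_filter.1 hcon).2
              rw [Set.indicator_of_notMem (show h ∉ {h : Γ | (h : Γ ⧸ Z) = (g : Γ ⧸ Z)} from hh),
                if_neg hm]
          rw [sum_congr rfl fun h _ => h3 h, sum_ite_mem, univ_inter, sum_const, smul_eq_mul]
          congr 1
          have h4 : (univ.filter fun h : Γ => (h : Γ ⧸ Z) = (g : Γ ⧸ Z))
              = (univ.filter fun h : Γ => h ∈ Z).image fun h => g * h := by
            ext h
            simp only [mem_filter, mem_univ, true_and, mem_image]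
            constructor
            · intro hh
              exact ⟨g⁻¹ * h, QuotientGroup.eq.1 hh.symm, by group⟩
            · rintro ⟨k, hk, rfl⟩
              exact QuotientGroup.mk_mul_of_mem g hk
          rw [h4, card_image_of_injective _ (mul_right_injective g), ← Fintype.card_subtype,
            ← Nat.card_eq_fintype_card, ← hZcard]
        · intro x hx
          obtain ⟨g, rfl⟩ := QuotientGroup.mk_surjective x
          rw [cs_push Z A hZA]
          have h3 := hle g fun h => hx ((hmemA g).2 h)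
          refine h3.trans (le_of_eq ?_)
          rw [hcardA]
          obtain ⟨a, ha⟩ : ∃ a, Nat.card (A.map (QuotientGroup.mk' Z)) = a + 1 :=
            ⟨Nat.card (A.map (QuotientGroup.mk' Z)) - 1, by
              have : 0 < Nat.card (A.map (QuotientGroup.mk' Z)) := Nat.card_pos
              omega⟩
          obtain ⟨r, hr⟩ : ∃ r, q = r + 1 := ⟨q - 1, by omega⟩
          rw [ha, hr, Nat.add_sub_cancel, Nat.add_sub_cancel]
          have h5 : (a + 1) * (r + 1) - 1 = a * (r + 1) + r := by
            have : (a + 1) * (r + 1) = a * (r + 1) + r + 1 := by ring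
            omega
          rw [h5]
          ring
        · intro t ht x
          obtain ⟨g, rfl⟩ := QuotientGroup.mk_surjective x
          have h3 : ((g : Γ ⧸ Z)) ^ t = ((g ^ t : Γ) : Γ ⧸ Z) := (QuotientGroup.mk_pow Z g t).symm
          rw [h3, cs_push Z A hZA, cs_push Z A hZA]
          exact hinv t ht g
        · omega
      refine DecG.step z hzc q hzq Z hZ μ hsym lam N hlamZ hdec ?_
      obtain ⟨r, hr⟩ : ∃ r, q = r + 1 := ⟨q - 1, by omega⟩
      rw [hr, Nat.add_sub_cancel] at htot
      rw [hr]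
      have h6 : (r + 1) * lam = r * lam + lam := by ring
      omega

end Pool.Agent.H60LA
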