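import Mathlib
import Pool.Agent.Helper60_LA.NilpMain

/-!
The linear arboricity of Cayley graphs of nilpotent groups.
-/

set_option autoImplicit false

open SimpleGraph Finset

namespace Pool.Agent.H60LA

theorem mulCayley_neighbor {Γ : Type} [Group Γ] (S : Set Γ) (h0 : (1 : Γ) ∉ S)
    (hinv : ∀ s ∈ S, s⁻¹ ∈ S) (u v : Γ) : (mulCayley S).Adj u v ↔ u⁻¹ * v ∈ S := by
  rw [mulCayley_adj]
  constructor
  · rintro ⟨_, h | h⟩
    · exact h
    · have := hinv _ h
      rwa [mul_inv_rev, inv_inv] at this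
  · intro h
    refine ⟨?_, Or.inl h⟩
    rintro rfl
    rw [inv_mul_cancel] at h
    exact h0 h

theorem mulCayley_degree {Γ : Type} [Group Γ] (S : Set Γ) (h0 : (1 : Γ) ∉ S)
    (hinv : ∀ s ∈ S, s⁻¹ ∈ S) (u : Γ) : ((mulCayley S).neighborSet u).ncard = S.ncard := by
  have h : (mulCayley S).neighborSet u = (fun s => u * s) '' S := by
    ext v
    rw [mem_neighborSet, mulCayley_neighbor S h0 hinv, Set.mem_image]
    constructor
    · intro h
      exact ⟨u⁻¹ * v, h, by group⟩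
    · rintro ⟨s, hs, rfl⟩
      rwa [inv_mul_cancel_left]
  rw [h, Set.ncard_image_of_injective _ (mul_right_injective u)]

/-- Cayley graphs of nilpotent groups -/
theorem nilpotent_cayley (p : ℕ) [Fact p.Prime] (Γ : Type) [Group Γ] [Finite Γ]
    [Group.IsNilpotent Γ] (A : Subgroup Γ) [A.Normal]
    (hcomm : ∀ g h : Γ, g * h * g⁻¹ * h⁻¹ ∈ A) (hpow : ∀ g : Γ, g ^ p ∈ A)
    (S : Set Γ) (h1 : (1 : Γ) ∉ S) (hne : S.Nonempty) (hsym : ∀ s ∈ S, s⁻¹ ∈ S)
    (hA : (∀ a ∈ A, a ≠ 1 → a ∈ S) ∨ (Even S.ncard ∧ (∀ a ∈ A, a ∉ S) ∧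
      ∀ g : Γ, {s ∈ S | g⁻¹ * s ∈ A}.ncard ≤ 2))
    (hinv : 3 < p → ∀ (g : Γ) (t : ℕ), ¬ p ∣ t →
      {s ∈ S | (g ^ t)⁻¹ * s ∈ A}.ncard = {s ∈ S | g⁻¹ * s ∈ A}.ncard) :
    (∀ v, ((mulCayley S).neighborSet v).ncard = S.ncard) ∧
      la (mulCayley S) = (S.ncard + 2) / 2 := by
  classical
  have := Fintype.ofFinite Γ
  have hdeg := mulCayley_degree S h1 hsym
  refine ⟨hdeg, ?_⟩
  let μ : Γ → ℕ := Set.indicator S (fun _ => 1)
  have hμ1 : ∀ s ∈ S, μ s = 1 := fun s hs => Set.indicator_of_mem hs _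
  have hμ0 : ∀ s, s ∉ S → μ s = 0 := fun s hs => Set.indicator_of_notMem hs _
  have hcs : ∀ g, cs A μ g = {s ∈ S | g⁻¹ * s ∈ A}.ncard := by
    intro g
    unfold cs
    rw [Set.ncard_eq_toFinset_card _ (Set.toFinite _), card_eq_sum_ones]
    have h2 : ∀ h : Γ, Set.indicator {h : Γ | g⁻¹ * h ∈ A} μ h
        = if h ∈ (Set.toFinite {s ∈ S | g⁻¹ * s ∈ A}).toFinset then 1 else 0 := by
      intro h
      by_cases hh : g⁻¹ * h ∈ A
      · rw [Set.indicator_of_mem (show h ∈ {h : Γ | g⁻¹ * h ∈ A} from hh)]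
        by_cases hS : h ∈ S
        · rw [hμ1 h hS, if_pos]
          rw [Set.Finite.mem_toFinset]
          exact ⟨hS, hh⟩
        · rw [hμ0 h hS, if_neg]
          rw [Set.Finite.mem_toFinset]
          exact fun hcon => hS hcon.1
      · rw [Set.indicator_of_notMem (show h ∉ {h : Γ | g⁻¹ * h ∈ A} from hh), if_neg]
        rw [Set.Finite.mem_toFinset]
        exact fun hcon => hh hcon.2
    rw [sum_congr rfl fun h _ => h2 h, sum_ite_mem, univ_inter]
  have htot : totG μ = S.ncard := by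
    unfold totG
    rw [Set.ncard_eq_toFinset_card _ (Set.toFinite _), card_eq_sum_ones]
    have h2 : ∀ h : Γ, Set.indicator {h : Γ | h ≠ 1} μ h
        = if h ∈ (Set.toFinite S).toFinset then 1 else 0 := by
      intro h
      by_cases hS : h ∈ S
      · have h3 : h ≠ 1 := fun h3 => h1 (h3 ▸ hS)
        rw [Set.indicator_of_mem (show h ∈ {h : Γ | h ≠ 1} from h3), hμ1 h hS, if_pos]
        rw [Set.Finite.mem_toFinset]
        exact hS
      · rw [if_neg (by rw [Set.Finite.mem_toFinset]; exact hS)]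
        by_cases h3 : h = 1
        · rw [Set.indicator_of_notMem (show h ∉ {h : Γ | h ≠ 1} from fun hcon => hcon h3)]
        · rw [Set.indicator_of_mem (show h ∈ {h : Γ | h ≠ 1} from h3), hμ0 h hS]
    rw [sum_congr rfl fun h _ => h2 h, sum_ite_mem, univ_inter]
  have hμsym : ∀ g, μ g⁻¹ = μ g := by
    intro g
    by_cases hg : g ∈ S
    · rw [hμ1 _ hg, hμ1 _ (hsym g hg)]
    · rw [hμ0 _ hg, hμ0]
      intro hcon
      have := hsym _ hcon
      rw [inv_inv] at this
      exact hg this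
  -- invariance under powers
  have hcsA : ∀ g a : Γ, a ∈ A → cs A μ (g * a) = cs A μ g := by
    intro g a ha
    unfold cs
    refine sum_congr rfl fun h _ => ?_
    congr 1
    ext h
    show (g * a)⁻¹ * h ∈ A ↔ g⁻¹ * h ∈ A
    rw [mul_inv_rev, mul_assoc]
    constructor
    · intro h2
      have := A.mul_mem ha h2
      rwa [mul_inv_cancel_left] at this
    · intro h2
      exact A.mul_mem (A.inv_mem ha) h2
  have hcsinv : ∀ g : Γ, cs A μ g⁻¹ = cs A μ g := by
    intro g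
    unfold cs
    rw [← Equiv.sum_comp (Equiv.inv Γ)]
    refine sum_congr rfl fun h _ => ?_
    rw [Equiv.inv_apply]
    have h3 : g⁻¹⁻¹ * h⁻¹ ∈ A ↔ g⁻¹ * h ∈ A := by
      rw [inv_inv]
      constructor
      · intro h4
        have h5 := (inferInstance : A.Normal).conj_mem _ (A.inv_mem h4) g⁻¹
        have h6 : g⁻¹ * (g * h⁻¹)⁻¹ * g⁻¹⁻¹ = g⁻¹ * h := by group
        rwa [h6] at h5
      · intro h4
        have h5 := (inferInstance : A.Normal).conj_mem _ (A.inv_mem h4) g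
        have h6 : g * (g⁻¹ * h)⁻¹ * g⁻¹ = g * h⁻¹ := by group
        rwa [h6] at h5
    by_cases hh : g⁻¹ * h ∈ A
    · rw [Set.indicator_of_mem (show h ∈ {h : Γ | g⁻¹ * h ∈ A} from hh),
        Set.indicator_of_mem (show h⁻¹ ∈ {h : Γ | g⁻¹⁻¹ * h ∈ A} from h3.2 hh), hμsym]
    · rw [Set.indicator_of_notMem (show h ∉ {h : Γ | g⁻¹ * h ∈ A} from hh),
        Set.indicator_of_notMem (show h⁻¹ ∉ {h : Γ | g⁻¹⁻¹ * h ∈ A} from fun hcon =>
          hh (h3.1 hcon))]
  have hp2 := (Fact.out : p.Prime).two_le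
  have hcspow : ∀ t : ℕ, ¬ p ∣ t → ∀ g, cs A μ (g ^ t) = cs A μ g := by
    intro t ht g
    by_cases hp3 : 3 < p
    · rw [hcs, hcs]
      exact hinv hp3 g t ht
    · have hmodA : g ^ (p * (t / p)) ∈ A := by
        rw [pow_mul]
        exact A.pow_mem (hpow g) _
      have h2 : g ^ t = g ^ (t % p) * g ^ (p * (t / p)) := by
        rw [← pow_add, Nat.mod_add_div]
      rw [h2, hcsA _ _ hmodA]
      have h3 : t % p ≠ 0 := fun h => ht (Nat.dvd_of_mod_eq_zero h)
      have h4 : t % p < p := Nat.mod_lt _ (by omega)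
      have h5 : t % p = 1 ∨ (t % p = 2 ∧ p = 3) := by omega
      rcases h5 with h5 | ⟨h5, h6⟩
      · rw [h5, pow_one]
      · rw [h5]
        have h7 : g ^ 2 = g⁻¹ * g ^ p := by
          rw [h6, eq_inv_mul_iff_mul_eq]
          exact (pow_succ' g 2).symm
        rw [h7, hcsA _ _ (hpow g), hcsinv]
  -- decomposition
  have hcardA : 0 < Nat.card A := Nat.card_pos
  have hmul : ∀ g : Γ, {s ∈ S | g⁻¹ * s ∈ A}.ncard ≤ Nat.card A := by
    intro g
    have h2 : {s ∈ S | g⁻¹ * s ∈ A} ⊆ (fun a => g * a) '' (A : Set Γ) := by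
      rintro s ⟨_, hs⟩
      exact ⟨g⁻¹ * s, hs, by group⟩
    have h3 := Set.ncard_le_ncard h2 (Set.toFinite _)
    rw [Set.ncard_image_of_injective _ (mul_right_injective g)] at h3
    exact h3
  have hdec : DecG μ ((S.ncard + 2) / 2) := by
    rcases hA with hA | ⟨hev, hA, hle⟩
    · refine decG_main p _ Γ A le_rfl hcomm hpow μ hμsym 1 1 _ le_rfl ?_ ?_ hcspow ?_
      · intro a ha ha1
        exact hμ1 a (hA a ha ha1)
      · intro g _
        rw [hcs, mul_one]
        have := hmul g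
        omega
      · rw [htot]
        omega
    · obtain ⟨k, hk⟩ := hev
      refine decG_main p _ Γ A le_rfl hcomm hpow μ hμsym 0 2 _ (by omega) ?_ ?_ hcspow ?_
      · intro a ha _
        exact hμ0 a (hA a ha)
      · intro g _
        rw [hcs]
        exact (hle g).trans (by omega)
      · rw [htot]
        omega
  have hup : Helper14_LA.CoveredBy (mulCayley S) ((S.ncard + 2) / 2) := by
    obtain ⟨F, hF1, hF2⟩ := hdec
    refine ⟨F, fun i => ⟨(hF1 i).1.isAcyclic, (hF1 i).2.ncard_le⟩, ?_⟩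
    ext x y
    rw [iSup_adj, mulCayley_neighbor S h1 hsym]
    by_cases hxy : x = y
    · subst hxy
      rw [inv_mul_cancel]
      constructor
      · rintro ⟨i, hi⟩
        exact absurd rfl hi.ne
      · intro h
        exact absurd h h1
    · have h3 := hF2 x y hxy
      constructor
      · rintro ⟨i, hi⟩
        by_contra hcon
        rw [hμ0 _ hcon] at h3
        have : Nonempty {i // (F i).Adj x y} := ⟨⟨i, hi⟩⟩
        have := Nat.card_pos (α := {i // (F i).Adj x y})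
        omega
      · intro h
        rw [hμ1 _ h] at h3
        have : 0 < Nat.card {i // (F i).Adj x y} := by omega
        obtain ⟨i⟩ := (Nat.card_pos_iff.1 this).1
        exact ⟨i.1, i.2⟩
  refine le_antisymm (Nat.sInf_le hup) ?_
  have hmem : Helper14_LA.CoveredBy (mulCayley S) (la (mulCayley S)) :=
    Nat.sInf_mem (s := {k : ℕ | Helper14_LA.CoveredBy (mulCayley S) k}) ⟨_, hup⟩
  exact Helper14_LA.lower_bound (mulCayley S) ((Set.ncard_pos (Set.toFinite _)).2 hne) hdeg hmem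

end Pool.Agent.H60LA
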